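import Pool.Graph.R_pool_sql_team_seeded_63374d34.N673.QC.Comp
import Pool.Graph.R_pool_sql_team_seeded_63374d34.N673.QC.Bdry
import Pool.Graph.R_seed8.H548R3.MB.Eff2
import Pool.Graph.R_pool_sql_team_seeded_63374d34.N896.MB.Law

set_option autoImplicit false

/-! # Attracting cycles of exact period `p` -/

namespace Pool.Agent.Helper95.GB

open Complex Metric Set Filter Topology MeasureTheory
open N62a1eb23
open Pool.Agent.H712R2 (P fc P_zero P_succ isCompact_multibrot)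
open Pool.Agent.N673.QC (DD hasDerivAt_iter cont_iter cont_DD component)

variable {d : ℕ}

/-- `z ^ d + c` has an attracting cycle of exact period `p` -/
def Att (d p : ℕ) (c : ℂ) : Prop :=
  0 < p ∧ ∃ z : ℂ, Function.minimalPeriod (fc d c) z = p ∧ ‖deriv ((fc d c)^[p]) z‖ < 1

/-- the hyperbolic parameters in the Multibrot set -/
def Hyp (d : ℕ) : Set ℂ := {c | ∃ p, Att d p c}

theorem diff_fc (d : ℕ) (c : ℂ) (m : ℕ) : Differentiable ℂ ((fc d c)^[m]) :=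
  fun z => (hasDerivAt_iter d m c z).differentiableAt

theorem Att.cycle {p : ℕ} {c : ℂ} (h : Att d p c) :
    ∃ z, IsAttractingCycle (fc d c) p z ∧ Function.minimalPeriod (fc d c) z = p := by
  obtain ⟨hp, z, h1, h2⟩ := h
  refine ⟨z, ⟨hp, ?_, diff_fc d c p z, h2⟩, h1⟩
  rw [← h1]
  exact Function.isPeriodicPt_minimalPeriod _ _

/-- the multiplier of a multiple of the period -/
theorem deriv_mul {c z : ℂ} {q : ℕ} (h : (fc d c)^[q] z = z) (k : ℕ) :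
    deriv ((fc d c)^[q * k]) z = (deriv ((fc d c)^[q]) z) ^ k := by
  rw [Function.iterate_mul]
  exact (HasDerivAt.iterate z (diff_fc d c q z).hasDerivAt h k).deriv

theorem att_of_cycle {c z : ℂ} {m : ℕ} (h : IsAttractingCycle (fc d c) m z) :
    Att d (Function.minimalPeriod (fc d c) z) c := by
  obtain ⟨hm, hper, -, hder⟩ := h
  have h0 : 0 < Function.minimalPeriod (fc d c) z := hper.minimalPeriod_pos hm
  refine ⟨h0, z, rfl, ?_⟩
  obtain ⟨k, hk⟩ := hper.minimalPeriod_dvd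
  have hk0 : k ≠ 0 := by
    rintro rfl
    rw [mul_zero] at hk
    omega
  rw [hk, deriv_mul (Function.iterate_minimalPeriod), norm_pow] at hder
  by_contra hcon
  rw [not_lt] at hcon
  exact absurd hder (not_lt.2 (one_le_pow₀ hcon))

theorem att_unique (hd : 2 ≤ d) {p q : ℕ} {c : ℂ} (h : Att d p c) (h' : Att d q c) : p = q := by
  obtain ⟨z, h1, h2⟩ := h.cycle
  obtain ⟨z', h1', h2'⟩ := h'.cycle
  have := Pool.Agent.TH363.CD.period_unique hd h1 h1'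
  have h3 : Function.minimalPeriod (fc d c) z' = Function.minimalPeriod (fc d c) z := this
  rw [h2, h2'] at h3
  exact h3.symm

/-- the period is constant on connected open subsets of the Multibrot set -/
theorem att_const (hd : 2 ≤ d) {V : Set ℂ} (hV : IsOpen V) (hVp : IsPreconnected V)
    (hVM : V ⊆ multibrotSet d) {c₁ c₂ : ℂ} (h1 : c₁ ∈ V) (h2 : c₂ ∈ V) {p : ℕ}
    (h : Att d p c₁) : Att d p c₂ := by
  obtain ⟨z₁, a1, a2⟩ := h.cycle
  obtain ⟨z₂, b1⟩ := component hd hV hVp hVM h1 a1 c₂ h2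
  have b2 := att_of_cycle b1
  have hdvd : Function.minimalPeriod (fc d c₂) z₂ ∣ p := b1.2.1.minimalPeriod_dvd
  obtain ⟨z₃, c1, c2⟩ := b2.cycle
  obtain ⟨z₄, e1⟩ := component hd hV hVp hVM h2 c1 c₁ h1
  have e2 := att_of_cycle e1
  have e3 := att_unique hd h e2
  have hdvd' : Function.minimalPeriod (fc d c₁) z₄ ∣ Function.minimalPeriod (fc d c₂) z₂ :=
    e1.2.1.minimalPeriod_dvd
  rw [← e3] at hdvd'
  rw [Nat.dvd_antisymm hdvd' hdvd]
  exact b2

theorem hyp_sub (hd : 2 ≤ d) : Hyp d ⊆ multibrotSet d := by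
  rintro c ⟨p, h⟩
  obtain ⟨z, h1, -⟩ := h.cycle
  exact Pool.Agent.TH363.CD.mem_multibrot hd h1

/-- attracting cycles persist, uniformly -/
theorem persist' {c₀ z₀ : ℂ} {m : ℕ} (h : IsAttractingCycle (fc d c₀) m z₀) :
    ∃ q : ℝ, 0 ≤ q ∧ q < 1 ∧ ∀ᶠ c in 𝓝 c₀, ∃ z, (fc d c)^[m] z = z ∧
      ‖deriv ((fc d c)^[m]) z‖ ≤ q := by
  obtain ⟨hm, hper, -, hder⟩ := h
  have hper' : (fc d c₀)^[m] z₀ = z₀ := hper
  have hder' : ‖DD d m c₀ z₀‖ < 1 := by
    have := (hasDerivAt_iter d m c₀ z₀).deriv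
    rw [← this]
    exact hder
  obtain ⟨q, hq1, hq2⟩ := exists_between hder'
  have hq0 : 0 ≤ q := (norm_nonneg _).trans hq1.le
  refine ⟨q, hq0, hq2, ?_⟩
  have h1 : ∀ᶠ x : ℂ × ℂ in 𝓝 (c₀, z₀), ‖DD d m x.1 x.2‖ < q := by
    have h0 := (cont_DD d m).norm.tendsto (c₀, z₀)
    exact h0.eventually_lt_const hq1
  obtain ⟨r, hr, hr2⟩ := Metric.eventually_nhds_iff.1 h1
  have h2 : ∀ᶠ c in 𝓝 c₀, ‖(fc d c)^[m] z₀ - z₀‖ < (1 - q) * (r / 2) := by
    have hc : Continuous fun c : ℂ => ‖(fc d c)^[m] z₀ - z₀‖ :=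
      (((cont_iter d m).comp (continuous_id.prodMk continuous_const)).sub continuous_const).norm
    have h0 := hc.tendsto c₀
    rw [hper', sub_self, norm_zero] at h0
    refine h0.eventually_lt_const ?_
    have : 0 < 1 - q := by linarith
    positivity
  filter_upwards [h2, ball_mem_nhds c₀ hr] with c hc hcr
  have hsmall : ∀ z ∈ closedBall z₀ (r / 2), ‖DD d m c z‖ ≤ q := by
    intro z hz
    refine (hr2 (y := (c, z)) ?_).le
    rw [Prod.dist_eq]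
    refine max_lt hcr ?_
    rw [mem_closedBall] at hz
    exact hz.trans_lt (by linarith)
  have hderiv : ∀ z, deriv ((fc d c)^[m]) z = DD d m c z := fun z => (hasDerivAt_iter d m c z).deriv
  have hdiff : Differentiable ℂ ((fc d c)^[m]) := fun z => (hasDerivAt_iter d m c z).differentiableAt
  have hmaps : MapsTo ((fc d c)^[m]) (closedBall z₀ (r / 2)) (closedBall z₀ (r / 2)) := by
    intro z hz
    have h3 := (convex_closedBall z₀ (r / 2)).norm_image_sub_le_of_norm_deriv_le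
      (f := (fc d c)^[m]) (C := q) (x := z₀) (y := z) (fun x _ => hdiff x)
      (fun x hx => by rw [hderiv]; exact hsmall x hx) (mem_closedBall_self (by linarith)) hz
    rw [mem_closedBall, dist_eq_norm] at hz ⊢
    calc ‖(fc d c)^[m] z - z₀‖ = ‖((fc d c)^[m] z - (fc d c)^[m] z₀) + ((fc d c)^[m] z₀ - z₀)‖ := by
          rw [sub_add_sub_cancel]
      _ ≤ ‖(fc d c)^[m] z - (fc d c)^[m] z₀‖ + ‖(fc d c)^[m] z₀ - z₀‖ := norm_add_le _ _
      _ ≤ q * ‖z - z₀‖ + (1 - q) * (r / 2) := add_le_add h3 hc.le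
      _ ≤ q * (r / 2) + (1 - q) * (r / 2) := by
          have := mul_le_mul_of_nonneg_left hz hq0
          linarith
      _ = r / 2 := by ring
  obtain ⟨z, hz, h4, h5⟩ := Pool.Agent.H749R2.Hyp.fixed_of_contr (by linarith) hq0 hq2 hdiff hmaps
    (fun z hz => by rw [hderiv]; exact hsmall z hz)
  refine ⟨z, h4, ?_⟩
  rw [hderiv]
  exact hsmall z hz

theorem hyp_nhds {c₀ : ℂ} (h : c₀ ∈ Hyp d) : ∀ᶠ c in 𝓝 c₀, c ∈ Hyp d := by
  obtain ⟨p, hp⟩ := h
  obtain ⟨z, h1, -⟩ := hp.cycle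
  filter_upwards [Pool.Agent.N673.QC.persist h1] with c hc
  obtain ⟨w, hw⟩ := hc
  exact ⟨_, att_of_cycle hw⟩

theorem isOpen_hyp (d : ℕ) : IsOpen (Hyp d) :=
  isOpen_iff_mem_nhds.2 fun _ h => hyp_nhds h

/-- **Uniform bound** of the multiplier on compact sets of hyperbolic parameters. -/
theorem uniform (hd : 2 ≤ d) {K : Set ℂ} (hK : IsCompact K) (hKH : K ⊆ Hyp d) :
    ∃ (N : ℕ) (ε : ℝ), 0 < N ∧ 0 < ε ∧ ε ≤ 1 ∧ ∀ t ∈ K, ∀ p, Att d p t → ∃ z : ℂ,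
      Function.minimalPeriod (fc d t) z = p ∧ (fc d t)^[N] z = z ∧
        ‖deriv ((fc d t)^[N]) z‖ ≤ 1 - ε := by
  obtain ⟨N, ε, hN, hε, hε1, H⟩ : ∃ (N : ℕ) (ε : ℝ), 0 < N ∧ 0 < ε ∧ ε ≤ 1 ∧ ∀ t ∈ K, ∃ z : ℂ,
      (fc d t)^[N] z = z ∧ ‖deriv ((fc d t)^[N]) z‖ ≤ 1 - ε := by
    refine hK.induction_on (p := fun K => ∃ (N : ℕ) (ε : ℝ), 0 < N ∧ 0 < ε ∧ ε ≤ 1 ∧ ∀ t ∈ K,
      ∃ z : ℂ, (fc d t)^[N] z = z ∧ ‖deriv ((fc d t)^[N]) z‖ ≤ 1 - ε) ?_ ?_ ?_ ?_
    · exact ⟨1, 1, one_pos, one_pos, le_rfl, fun t ht => absurd ht (notMem_empty t)⟩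
    · rintro s t hst ⟨N, ε, h1, h2, h3, h4⟩
      exact ⟨N, ε, h1, h2, h3, fun x hx => h4 x (hst hx)⟩
    · rintro s t ⟨N, ε, h1, h2, h3, h4⟩ ⟨N', ε', h1', h2', h3', h4'⟩
      have key : ∀ (a b : ℕ) (e e' : ℝ) (x : ℂ), 0 < a → 0 < b → e' ≤ e → e ≤ 1 → 0 < e →
          (∃ z : ℂ, (fc d x)^[a] z = z ∧ ‖deriv ((fc d x)^[a]) z‖ ≤ 1 - e) →
          ∃ z : ℂ, (fc d x)^[a * b] z = z ∧ ‖deriv ((fc d x)^[a * b]) z‖ ≤ 1 - e' := by
        rintro a b e e' x ha hb hee he1 he0 ⟨z, hz1, hz2⟩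
        refine ⟨z, ?_, ?_⟩
        · rw [Function.iterate_mul]
          exact Function.iterate_fixed hz1 b
        · rw [deriv_mul hz1, norm_pow]
          have h5 : ‖deriv ((fc d x)^[a]) z‖ ^ b ≤ ‖deriv ((fc d x)^[a]) z‖ :=
            pow_le_of_le_one (norm_nonneg _) (by linarith) hb.ne'
          linarith
      refine ⟨N * N', min ε ε', by positivity, lt_min h2 h2', (min_le_left _ _).trans h3, ?_⟩
      rintro x (hx | hx)
      · exact key N N' ε _ x h1 h1' (min_le_left _ _) h3 h2 (h4 x hx)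
      · rw [mul_comm]
        exact key N' N ε' _ x h1' h1 (min_le_right _ _) h3' h2' (h4' x hx)
    · intro x hx
      obtain ⟨p, hp⟩ := hKH hx
      obtain ⟨z, h1, -⟩ := hp.cycle
      obtain ⟨q, hq0, hq1, hq⟩ := persist' h1
      refine ⟨_, mem_nhdsWithin_of_mem_nhds hq, p, 1 - q, hp.1, by linarith, by linarith, ?_⟩
      rintro t ⟨w, hw1, hw2⟩
      exact ⟨w, hw1, by linarith⟩
  refine ⟨N, ε, hN, hε, hε1, fun t ht p hp => ?_⟩
  obtain ⟨z, hz1, hz2⟩ := H t ht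
  refine ⟨z, ?_, hz1, hz2⟩
  have h1 : IsAttractingCycle (fc d t) N z := ⟨hN, hz1, diff_fc d t N z, by linarith⟩
  exact att_unique hd (att_of_cycle h1) hp

end Pool.Agent.Helper95.GB
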