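import Pool.Agent.Helper95.GB.Att

set_option autoImplicit false

/-! # The cusp of the main component -/

namespace Pool.Agent.Helper95.GB

open Complex Metric Set Filter Topology MeasureTheory
open N62a1eb23
open Pool.Agent.H712R2 (P fc P_zero P_succ isCompact_multibrot mem_multibrot_iff)

/-- the radius of the disc of fixed points -/
theorem exists_a (N : ℕ) : ∃ a : ℝ, 0 < a ∧ ((N : ℝ) + 2) * a ^ (N + 1) = 1 := by
  obtain ⟨x, hx⟩ : ∃ x : ℝ, x = ((N : ℝ) + 2)⁻¹ := ⟨_, rfl⟩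
  have hx0 : 0 < x := by rw [hx]; positivity
  refine ⟨x ^ (((N + 1 : ℕ) : ℝ)⁻¹), by positivity, ?_⟩
  rw [Real.rpow_inv_natCast_pow hx0.le (by omega), hx, mul_inv_cancel₀ (by positivity)]

/-- the parameter with the fixed point `ζ` -/
def ph (N : ℕ) (ζ : ℂ) : ℂ := ζ - ζ ^ (N + 2)

theorem ph_cont (N : ℕ) : Continuous (ph N) := by
  unfold ph
  fun_prop

variable {N : ℕ} {a : ℝ}

theorem att_main (ha : 0 < a) (h : ((N : ℝ) + 2) * a ^ (N + 1) = 1) {ζ : ℂ} (hζ : ‖ζ‖ < a) :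
    Att (N + 2) 1 (ph N ζ) := by
  have hfix : fc (N + 2) (ph N ζ) ζ = ζ := by
    unfold fc ph
    ring
  refine ⟨one_pos, ζ, ?_, ?_⟩
  · rw [Function.minimalPeriod_eq_one_iff_isFixedPt]
    exact hfix
  · rw [Function.iterate_one]
    have h1 : HasDerivAt (fc (N + 2) (ph N ζ)) (((N + 2 : ℕ) : ℂ) * ζ ^ (N + 2 - 1)) ζ :=
      (hasDerivAt_pow (N + 2) ζ).add_const _
    rw [h1.deriv, norm_mul, norm_pow, Complex.norm_natCast]
    have h2 : ‖ζ‖ ^ (N + 1) < a ^ (N + 1) := pow_lt_pow_left₀ hζ (norm_nonneg _) (by omega)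
    rw [show N + 2 - 1 = N + 1 by omega]
    push_cast
    rw [← h]
    gcongr

theorem tangent (ha : 0 < a) (h : ((N : ℝ) + 2) * a ^ (N + 1) = 1) {x : ℝ} (hx : 0 ≤ x) :
    x ≤ x ^ (N + 2) + (a - a ^ (N + 2)) := by
  have h1 := one_add_mul_le_pow (a := x / a - 1) (by
    have : 0 ≤ x / a := by positivity
    linarith) (N + 2)
  rw [add_sub_cancel, div_pow] at h1
  have ha2 : 0 < a ^ (N + 2) := by positivity
  rw [le_div_iff₀ ha2] at h1
  have e1 : (1 + ((N + 2 : ℕ) : ℝ) * (x / a - 1)) * a ^ (N + 2) = a ^ (N + 2) +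
      (((N : ℝ) + 2) * a ^ (N + 1)) * (x - a) := by
    push_cast
    rw [pow_succ a (N + 1)]
    field_simp
  rw [e1, h] at h1
  linarith

theorem escape (ha : 0 < a) (h : ((N : ℝ) + 2) * a ^ (N + 1) = 1) {δ : ℝ} (hδ : 0 < δ) :
    ((a - a ^ (N + 2) + δ : ℝ) : ℂ) ∉ multibrotSet (N + 2) := by
  intro hM
  rw [mem_multibrot_iff (by omega)] at hM
  have key : ∀ k : ℕ, ∃ x : ℝ, 0 ≤ x ∧ k * δ ≤ x ∧
      P (N + 2) k ((a - a ^ (N + 2) + δ : ℝ) : ℂ) = (x : ℂ) := by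
    intro k
    induction k with
    | zero => exact ⟨0, le_rfl, by simp, by rw [P_zero]; simp⟩
    | succ k ih =>
      obtain ⟨x, hx0, hx1, hx2⟩ := ih
      have h1 := tangent ha h hx0
      refine ⟨x ^ (N + 2) + (a - a ^ (N + 2) + δ), by linarith, ?_, ?_⟩
      · push_cast
        linarith
      · rw [P_succ, hx2]
        push_cast
        ring
  obtain ⟨k, hk⟩ := exists_nat_gt (2 / δ)
  rw [div_lt_iff₀ hδ] at hk
  obtain ⟨x, hx0, hx1, hx2⟩ := key k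
  have h1 := hM k
  rw [hx2, Complex.norm_real, Real.norm_of_nonneg hx0] at h1
  linarith

theorem ph_a : ph N (a : ℂ) = ((a - a ^ (N + 2) : ℝ) : ℂ) := by
  unfold ph
  push_cast
  rfl

theorem cusp_frontier (ha : 0 < a) (h : ((N : ℝ) + 2) * a ^ (N + 1) = 1) :
    ph N (a : ℂ) ∈ frontier (multibrotSet (N + 2)) := by
  rw [frontier_eq_closure_inter_closure]
  constructor
  · have h1 : (a : ℂ) ∈ closure (ball (0 : ℂ) a) := by
      rw [closure_ball _ ha.ne', mem_closedBall, dist_zero_right, Complex.norm_real,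
        Real.norm_of_nonneg ha.le]
    have h2 : ph N (a : ℂ) ∈ closure (ph N '' ball (0 : ℂ) a) :=
      image_closure_subset_closure_image (ph_cont N) (mem_image_of_mem _ h1)
    refine closure_mono ?_ h2
    rintro _ ⟨ζ, hζ, rfl⟩
    rw [mem_ball, dist_zero_right] at hζ
    exact hyp_sub (by omega) ⟨1, att_main ha h hζ⟩
  · rw [Metric.mem_closure_iff]
    intro ε hε
    refine ⟨((a - a ^ (N + 2) + ε / 2 : ℝ) : ℂ), escape ha h (by positivity), ?_⟩
    rw [ph_a, dist_eq_norm, ← Complex.ofReal_sub, Complex.norm_real]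
    rw [show a - a ^ (N + 2) - (a - a ^ (N + 2) + ε / 2) = -(ε / 2) by ring, norm_neg,
      Real.norm_of_nonneg (by positivity)]
    linarith

/-- the second factor of the Taylor expansion at the cusp -/
noncomputable def qq (N : ℕ) (a : ℝ) (x : ℂ) : ℂ :=
  -∑ k ∈ Finset.range (N + 1), x ^ k * (a : ℂ) ^ (N - k) * ((N + 2).choose (k + 2) : ℂ)

theorem qq_diff (N : ℕ) (a : ℝ) : Differentiable ℂ (qq N a) := by
  unfold qq
  fun_prop

theorem qq_zero (ha : 0 < a) : qq N a 0 ≠ 0 := by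
  unfold qq
  rw [Finset.sum_range_succ', neg_ne_zero]
  have h1 : ∑ k ∈ Finset.range N, (0 : ℂ) ^ (k + 1) * (a : ℂ) ^ (N - (k + 1)) *
      ((N + 2).choose (k + 1 + 2) : ℂ) = 0 := by
    apply Finset.sum_eq_zero
    intro k _
    rw [zero_pow (by omega), zero_mul, zero_mul]
  rw [h1, zero_add, pow_zero, one_mul]
  apply mul_ne_zero
  · exact pow_ne_zero _ (by exact_mod_cast ha.ne')
  · have : 0 < (N + 2).choose (0 + 2) := Nat.choose_pos (by omega)
    exact_mod_cast this.ne'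

theorem expand (h : ((N : ℝ) + 2) * a ^ (N + 1) = 1) (x : ℂ) :
    ph N (a + x) = ph N a + x ^ 2 * qq N a x := by
  have h' : ((N : ℂ) + 2) * (a : ℂ) ^ (N + 1) = 1 := by exact_mod_cast h
  have h1 : (x + (a : ℂ)) ^ (N + 2) = ∑ k ∈ Finset.range (N + 3), x ^ k * (a : ℂ) ^ (N + 2 - k) *
      ((N + 2).choose k : ℂ) := add_pow x (a : ℂ) (N + 2)
  rw [Finset.sum_range_succ', Finset.sum_range_succ'] at h1
  have h2 : ∑ k ∈ Finset.range (N + 1), x ^ (k + 1 + 1) * (a : ℂ) ^ (N + 2 - (k + 1 + 1)) *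
      ((N + 2).choose (k + 1 + 1) : ℂ) = x ^ 2 * (-qq N a x) := by
    unfold qq
    rw [neg_neg, Finset.mul_sum]
    apply Finset.sum_congr rfl
    intro k _
    rw [show N + 2 - (k + 1 + 1) = N - k by omega]
    ring
  rw [h2] at h1
  simp only [zero_add, pow_one, pow_zero, one_mul, Nat.choose_zero_right, Nat.cast_one, mul_one,
    Nat.choose_one_right, Nat.sub_zero] at h1
  rw [show N + 2 - 1 = N + 1 by omega] at h1
  push_cast at h1
  unfold ph
  rw [add_comm (a : ℂ) x, h1]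
  linear_combination (-x) * h'

/-- points off a ray -/
theorem in_main (ha : 0 < a) (h : ((N : ℝ) + 2) * a ^ (N + 1) = 1) {u₀ : ℂ} (hu : u₀.re < 0) :
    ∀ᶠ s : ℝ in 𝓝[>] 0, ∃ ζ : ℂ, ‖ζ‖ < a ∧
      ph N ζ = ph N a + qq N a 0 * (s * u₀) ^ 2 := by
  obtain ⟨κ, hκ⟩ : ∃ κ, κ = qq N a 0 := ⟨_, rfl⟩
  have hκ0 : 0 < ‖κ‖ := by rw [hκ]; exact norm_pos_iff.2 (qq_zero ha)
  have hre : 0 < -u₀.re := by linarith
  have hn : -u₀.re ≤ ‖u₀‖ := by
    have := Complex.abs_re_le_norm u₀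
    rw [abs_of_neg hu] at this
    exact this
  have hu0 : 0 < ‖u₀‖ := by linarith
  obtain ⟨r₀, hr₀⟩ : ∃ r₀, r₀ = -u₀.re / 2 := ⟨_, rfl⟩
  have hr₀0 : 0 < r₀ := by rw [hr₀]; positivity
  obtain ⟨η, hη⟩ : ∃ η, η = ‖κ‖ * r₀ * ‖u₀‖ / 4 := ⟨_, rfl⟩
  have hη0 : 0 < η := by rw [hη]; positivity
  have hq : ∀ᶠ x : ℂ in 𝓝 0, ‖qq N a x - κ‖ < η / (4 * ‖u₀‖ ^ 2) := by
    have h1 : Tendsto (fun x => ‖qq N a x - κ‖) (𝓝 0) (𝓝 ‖qq N a 0 - κ‖) :=
      ((qq_diff N a).continuous.continuousAt.tendsto.sub_const κ).norm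
    rw [← hκ, sub_self, norm_zero] at h1
    exact h1.eventually_lt_const (by positivity)
  obtain ⟨ρ, hρ, hρ2⟩ := Metric.eventually_nhds_iff.1 hq
  have hs1 : ∀ᶠ s : ℝ in 𝓝[>] 0, s < ρ / (2 * ‖u₀‖) :=
    mem_nhdsWithin_of_mem_nhds (gt_mem_nhds (by positivity))
  have hs2 : ∀ᶠ s : ℝ in 𝓝[>] 0, s < -u₀.re * a / (4 * ‖u₀‖ ^ 2) :=
    mem_nhdsWithin_of_mem_nhds (gt_mem_nhds (by positivity))
  filter_upwards [hs1, hs2, self_mem_nhdsWithin] with s h1 h2 hs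
  have hs0 : 0 < s := hs
  obtain ⟨F, hF⟩ : ∃ F : ℂ → ℂ, F = fun u => u ^ 2 * qq N a (s * u) := ⟨_, rfl⟩
  have hFd : Differentiable ℂ F := by
    rw [hF]
    have := qq_diff N a
    fun_prop
  have hnorm : ∀ u ∈ closedBall u₀ r₀, ‖u‖ ≤ 2 * ‖u₀‖ := by
    intro u hu'
    rw [mem_closedBall, dist_eq_norm] at hu'
    have := norm_add_le (u - u₀) u₀
    rw [sub_add_cancel] at this
    linarith
  have hclose : ∀ u ∈ closedBall u₀ r₀, ‖F u - κ * u ^ 2‖ < η := by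
    intro u hu'
    have h3 := hnorm u hu'
    have h4 : ‖qq N a (s * u) - κ‖ < η / (4 * ‖u₀‖ ^ 2) := by
      apply hρ2
      rw [dist_zero_right, norm_mul, Complex.norm_real, Real.norm_of_nonneg hs0.le]
      rw [lt_div_iff₀ (by positivity)] at h1
      calc s * ‖u‖ ≤ s * (2 * ‖u₀‖) := by gcongr
        _ < ρ := h1
    have h5 : F u - κ * u ^ 2 = u ^ 2 * (qq N a (s * u) - κ) := by
      rw [hF]
      ring
    rw [h5, norm_mul, norm_pow]
    calc ‖u‖ ^ 2 * ‖qq N a (s * u) - κ‖ ≤ (2 * ‖u₀‖) ^ 2 * ‖qq N a (s * u) - κ‖ := by gcongr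
      _ < (2 * ‖u₀‖) ^ 2 * (η / (4 * ‖u₀‖ ^ 2)) := by gcongr
      _ = η := by field_simp; ring
  have hc0 := hclose u₀ (mem_closedBall_self hr₀0.le)
  have hsph : ∀ u ∈ sphere u₀ r₀, 2 * η ≤ ‖F u - F u₀‖ := by
    intro u hu'
    have h3 := hclose u (sphere_subset_closedBall hu')
    have hu'' : ‖u - u₀‖ = r₀ := by rwa [mem_sphere, dist_eq_norm] at hu'
    have h4 : ‖u + u₀‖ ≥ ‖u₀‖ := by
      have h5 : (2 : ℂ) * u₀ = (u + u₀) - (u - u₀) := by ring
      have h6 := norm_sub_le (u + u₀) (u - u₀)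
      rw [← h5, norm_mul, hu''] at h6
      norm_num at h6
      linarith
    have h7 : ‖κ * u ^ 2 - κ * u₀ ^ 2‖ ≥ 4 * η := by
      have h8 : κ * u ^ 2 - κ * u₀ ^ 2 = κ * (u - u₀) * (u + u₀) := by ring
      rw [h8, norm_mul, norm_mul, hu'', hη]
      have h9 : ‖κ‖ * r₀ * ‖u₀‖ ≤ ‖κ‖ * r₀ * ‖u + u₀‖ := by gcongr
      linarith
    have h10 : κ * u ^ 2 - κ * u₀ ^ 2 = (F u - F u₀) - (F u - κ * u ^ 2) + (F u₀ - κ * u₀ ^ 2) := by
      ring
    rw [h10] at h7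
    have h11 := norm_add_le ((F u - F u₀) - (F u - κ * u ^ 2)) (F u₀ - κ * u₀ ^ 2)
    have h12 := norm_sub_le (F u - F u₀) (F u - κ * u ^ 2)
    linarith
  have hfr : ∃ᶠ z in 𝓝 u₀, F z ≠ F u₀ := by
    intro hcon
    have hcon' : ∀ᶠ z in 𝓝 u₀, F z = F u₀ := by
      filter_upwards [hcon] with z hz
      by_contra h3
      exact hz h3
    have h3 : EqOn F (fun _ => F u₀) univ :=
      AnalyticOnNhd.eqOn_of_preconnected_of_eventuallyEq
        (fun z _ => hFd.analyticAt z) analyticOnNhd_const isPreconnected_univ (mem_univ u₀) hcon'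
    have h4 : u₀ + r₀ ∈ sphere u₀ r₀ := by
      rw [mem_sphere, dist_eq_norm, add_sub_cancel_left, Complex.norm_real,
        Real.norm_of_nonneg hr₀0.le]
    have h5 := hsph _ h4
    rw [h3 (mem_univ (u₀ + r₀)), sub_self, norm_zero] at h5
    linarith
  have himg := DiffContOnCl.ball_subset_image_closedBall (f := F) (z₀ := u₀) (r := r₀)
    (ε := 2 * η) hFd.diffContOnCl hr₀0 hsph hfr
  obtain ⟨u, hu1, hu2⟩ := himg (show κ * u₀ ^ 2 ∈ ball (F u₀) (2 * η / 2) by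
    rw [mem_ball, dist_comm, dist_eq_norm]
    linarith)
  refine ⟨a + s * u, ?_, ?_⟩
  · -- inside the disc
    have h3 := hnorm u hu1
    have h4 : u.re ≤ u₀.re / 2 := by
      rw [mem_closedBall, dist_eq_norm] at hu1
      have h5 := Complex.abs_re_le_norm (u - u₀)
      rw [Complex.sub_re] at h5
      have h6 := (abs_le.1 (h5.trans hu1)).2
      linarith
    have h5 : ‖(a : ℂ) + s * u‖ ^ 2 = a ^ 2 + 2 * a * s * u.re + s ^ 2 * ‖u‖ ^ 2 := by
      rw [← Complex.normSq_eq_norm_sq, ← Complex.normSq_eq_norm_sq, Complex.normSq_apply,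
        Complex.normSq_apply]
      simp
      ring
    have h6 : ‖(a : ℂ) + s * u‖ ^ 2 < a ^ 2 := by
      rw [h5]
      have h7 : s * ‖u‖ ^ 2 < -a * u₀.re := by
        rw [lt_div_iff₀ (by positivity)] at h2
        calc s * ‖u‖ ^ 2 ≤ s * (2 * ‖u₀‖) ^ 2 := by gcongr
          _ = s * (4 * ‖u₀‖ ^ 2) := by ring
          _ < -u₀.re * a := h2
          _ = _ := by ring
      have h8 : 2 * a * s * u.re ≤ a * s * u₀.re := by
        have : a * s * (2 * u.re) ≤ a * s * u₀.re := by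
          apply mul_le_mul_of_nonneg_left _ (by positivity)
          linarith
        linarith
      nlinarith
    exact lt_of_pow_lt_pow_left₀ 2 ha.le h6
  · rw [expand h, mul_pow, hF] at *
    have h3 : u ^ 2 * qq N a (s * u) = κ * u₀ ^ 2 := hu2
    rw [← hκ]
    linear_combination (s : ℂ) ^ 2 * h3

end Pool.Agent.Helper95.GB
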