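import Pool.Graph.R_seed8.R240.Mass
import Pool.Graph.R_pool_sql_team_seeded_63374d34.N772.TC.Most

set_option autoImplicit false

/-! # The harmonic measure of the Multibrot set has full support: the parameters with a positive
Lyapunov exponent are dense in the boundary -/

namespace Pool.Agent.Helper95.GB

open Complex Metric Set Filter Topology MeasureTheory Pool.Agent.H712R2 Pool.Agent.H713R2
open N62a1eb23
open Real (posLog circleAverage)
open Pool.Agent.Y736.HG
open Pool.Agent.Y736.HD (cm cm_apply cm_eq Ang Ang_sub vol_Ang_ne sn sn_pos sn_lt sn_lim sn_inv_lim norm_pt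
  isOpen_ext integrable_cont UU lower_II avg_mem avg_ext avg_eq integrable_of)

variable {d : ℕ} {β ψ : ℂ → ℂ}

/-- lower bound of the harmonic measure from circle means -/
theorem le_vol' (hd2 : 2 ≤ d) (hβ : IsBeta d β) (hψ : IsExteriorMap (multibrotSet d) ψ)
    (hae : ∀ᵐ θ : ℝ, ∃ ζ : ℂ, Tendsto (fun ρ : ℝ => ψ (ρ * exp (θ * I))) (𝓝[>] 1) (𝓝 ζ))
    {c₀ : ℂ} (hc₀ : c₀ ∈ multibrotSet d)
    {ρ' ρ r S T : ℝ} (hρ' : 0 < ρ') (hρ : ρ' < ρ) (hr : ρ < r) (hS0 : 0 ≤ S)
    (hS : ∀ w : ℂ, 1 < ‖w‖ → ‖ψ w - c₀‖ ≤ ρ' → Real.log ‖w‖ ≤ S)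
    (hT : ∀ n, T + Real.log (sn n) ≤ circleAverage (UU β c₀ ρ) 0 (sn n)) :
    T - S ≤ Real.log (ρ / ρ') * (volume (Ang ψ c₀ r)).toReal / (2 * Real.pi) := by
  have hpi := Real.pi_pos
  have hρ0 : 0 < ρ := hρ'.trans hρ
  obtain ⟨A, hA⟩ : ∃ A, A = Real.log (ρ / ρ') := ⟨_, rfl⟩
  have hA0 : 0 < A := by
    rw [hA]
    apply Real.log_pos
    rwa [lt_div_iff₀ hρ', one_mul]
  rw [← hA]
  obtain ⟨D, hD⟩ : ∃ D : ℕ → Set ℝ, D = fun n =>
      {θ : ℝ | ‖ψ (((sn n)⁻¹ : ℝ) * exp (θ * I)) - c₀‖ < ρ} := ⟨_, rfl⟩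
  have hDm : ∀ n, MeasurableSet (D n) := by
    intro n
    rw [hD]
    exact (isOpen_lt ((cont_pt hψ (sn_pos n) (sn_lt n)).sub continuous_const).norm
      continuous_const).measurableSet
  -- each level
  have hlev : ∀ n, T + Real.log (sn n) ≤ A * cm.real (D n) + S := by
    intro n
    have h1 := hT n
    have h2 := mean_le hβ hψ hc₀ hρ' (sn_pos n) (sn_lt n) hS0 hS
    rw [avg_psi hβ hψ c₀ _ (sn_pos n) (sn_lt n)] at h1 h2
    refine h1.trans (le_trans ?_ (add_le_add le_rfl h2))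
    have h3 : Integrable ((D n).indicator fun _ => (1 : ℝ)) cm :=
      (integrable_const _).indicator (hDm n)
    have h4 : cm.real (D n) = ∫ θ, (D n).indicator (fun _ => (1 : ℝ)) θ ∂cm := by
      rw [integral_indicator (hDm n), setIntegral_const, smul_eq_mul, mul_one]
    rw [h4, ← integral_const_mul, ← integral_add (h3.const_mul A)
      (integrable_cont (cont_U hψ hc₀ ρ' (sn_pos n) (sn_lt n)))]
    apply integral_mono (integrable_cont (cont_U hψ hc₀ ρ (sn_pos n) (sn_lt n)))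
      ((h3.const_mul A).add (integrable_cont (cont_U hψ hc₀ ρ' (sn_pos n) (sn_lt n))))
    intro θ
    show posLog (ρ / ‖ψ (((sn n)⁻¹ : ℝ) * exp (θ * I)) - c₀‖) ≤
      A * (D n).indicator (fun _ => (1 : ℝ)) θ +
        posLog (ρ' / ‖ψ (((sn n)⁻¹ : ℝ) * exp (θ * I)) - c₀‖)
    obtain ⟨t, ht⟩ : ∃ t, t = ‖ψ (((sn n)⁻¹ : ℝ) * exp (θ * I)) - c₀‖ := ⟨_, rfl⟩
    have ht0 : 0 < t := by
      rw [ht]
      exact norm_pos_iff.2 (sub_ne_zero.2 (psi_ne hψ hc₀ (norm_pt (sn_pos n) (sn_lt n) θ)))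
    by_cases hθ : θ ∈ D n
    · rw [indicator_of_mem hθ, mul_one, ← ht]
      have h5 : t < ρ := by
        rw [hD] at hθ
        rw [ht]
        exact hθ
      have h6 : 1 ≤ |ρ / t| := by
        rw [abs_of_pos (by positivity), le_div_iff₀ ht0]
        linarith
      rw [Real.posLog_eq_log h6]
      have h7 : Real.log (ρ / t) = A + Real.log (ρ' / t) := by
        rw [hA, ← Real.log_mul (by positivity) (by positivity)]
        congr 1
        field_simp
      rw [h7]
      have : Real.log (ρ' / t) ≤ posLog (ρ' / t) := le_max_right _ _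
      linarith
    · rw [indicator_of_notMem hθ, mul_zero, zero_add, ← ht]
      have h5 : ρ ≤ t := by
        rw [hD] at hθ
        rw [ht]
        exact not_lt.1 hθ
      have h6 : posLog (ρ / t) = 0 := by
        rw [Real.posLog_eq_zero_iff, abs_of_pos (by positivity), div_le_one ht0]
        exact h5
      rw [h6]
      exact Real.posLog_nonneg
  -- the upper limit of the sets
  obtain ⟨E, hE⟩ : ∃ E : ℕ → Set ℝ, E = fun N => ⋃ n, D (N + n) := ⟨_, rfl⟩
  have hEm : ∀ N, MeasurableSet (E N) := by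
    intro N
    rw [hE]
    exact MeasurableSet.iUnion fun n => hDm _
  have hanti : Antitone E := by
    intro N N' h
    rw [hE]
    apply iUnion_subset
    intro n
    obtain ⟨k, rfl⟩ := Nat.exists_eq_add_of_le h
    rw [show N + k + n = N + (k + n) by ring]
    exact subset_iUnion (fun n => D (N + n)) (k + n)
  have hElow : ∀ N, (T - S) / A ≤ cm.real (E N) := by
    intro N
    have h1 : ∀ n, (T + Real.log (sn (N + n)) - S) / A ≤ cm.real (E N) := by
      intro n
      have h2 : cm.real (D (N + n)) ≤ cm.real (E N) := by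
        refine measureReal_mono ?_ (measure_ne_top _ _)
        rw [hE]
        exact subset_iUnion (fun n => D (N + n)) n
      rw [div_le_iff₀ hA0]
      have h3 := hlev (N + n)
      nlinarith
    have h2 : Tendsto (fun n => (T + Real.log (sn (N + n)) - S) / A) atTop
        (𝓝 ((T + Real.log 1 - S) / A)) := by
      have h3 : Tendsto (fun n => sn (N + n)) atTop (𝓝 1) := by
        have := sn_lim.comp (tendsto_add_atTop_nat N)
        refine this.congr fun n => ?_
        show sn (n + N) = sn (N + n)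
        rw [add_comm]
      have h4 := (Real.continuousAt_log one_ne_zero).tendsto.comp h3
      exact ((h4.const_add T).sub_const S).div_const A
    rw [Real.log_one, add_zero] at h2
    exact le_of_tendsto' h2 h1
  have hlim : (T - S) / A ≤ cm.real (⋂ N, E N) := by
    have h1 : Tendsto (fun N => cm (E N)) atTop (𝓝 (cm (⋂ N, E N))) :=
      tendsto_measure_iInter_atTop (fun N => (hEm N).nullMeasurableSet) hanti
        ⟨0, measure_ne_top _ _⟩
    have h2 : Tendsto (fun N => cm.real (E N)) atTop (𝓝 (cm.real (⋂ N, E N))) :=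
      (ENNReal.tendsto_toReal (measure_ne_top _ _)).comp h1
    exact ge_of_tendsto' h2 hElow
  -- almost every angle of the upper limit lands in the ball
  have hsub : volume ((⋂ N, E N) ∩ Ioc 0 (2 * Real.pi)) ≤ volume (Ang ψ c₀ r) := by
    apply measure_mono_ae
    filter_upwards [hae] with θ hθ hmem
    obtain ⟨hθ1, hθ2⟩ := hmem
    obtain ⟨ζ, hζ⟩ := hθ
    refine ⟨hθ2, ζ, ?_, hζ⟩
    rw [mem_ball, dist_eq_norm]
    refine lt_of_le_of_lt ?_ hr
    have h4 : Tendsto (fun n => ‖ψ (((sn n)⁻¹ : ℝ) * exp (θ * I)) - c₀‖) atTop (𝓝 ‖ζ - c₀‖) :=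
      ((hζ.comp sn_inv_lim).sub_const c₀).norm
    apply le_of_tendsto_of_frequently h4
    rw [frequently_atTop]
    intro N
    have h5 := mem_iInter.1 hθ1 N
    rw [hE] at h5
    obtain ⟨n, hn⟩ := mem_iUnion.1 h5
    refine ⟨N + n, Nat.le_add_right _ _, ?_⟩
    rw [hD] at hn
    exact le_of_lt hn
  have h1 : cm.real (⋂ N, E N) ≤ (2 * Real.pi)⁻¹ * (volume (Ang ψ c₀ r)).toReal := by
    unfold Measure.real
    rw [cm_eq, ENNReal.toReal_mul, ENNReal.toReal_ofReal (by positivity)]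
    gcongr
    exact vol_Ang_ne ψ c₀ r
  have h2 := hlim.trans h1
  rw [div_le_iff₀ hA0] at h2
  refine h2.trans (le_of_eq ?_)
  field_simp

/-- the circle mean of a nonnegative continuous function, positive at a point of the circle -/
theorem avg_pos {f : ℂ → ℝ} (hf : Continuous f) (h0 : ∀ z, 0 ≤ f z) {c y : ℂ} {ρ : ℝ}
    (hρ : 0 < ρ) (hy : ‖y - c‖ = ρ) (hfy : 0 < f y) : 0 < circleAverage f c ρ := by
  have hpi := Real.pi_pos
  have h1 : y ∈ sphere c |ρ| := by
    rw [mem_sphere, dist_eq_norm, abs_of_pos hρ]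
    exact hy
  rw [← image_circleMap_Ioc] at h1
  obtain ⟨θ, hθ, hθy⟩ := h1
  rw [Real.circleAverage_def, smul_eq_mul]
  apply mul_pos (by positivity)
  apply intervalIntegral.integral_pos (by positivity)
  · exact (hf.comp (continuous_circleMap c ρ)).continuousOn
  · intro t _
    exact h0 _
  · refine ⟨θ, ⟨hθ.1.le, hθ.2⟩, ?_⟩
    rw [hθy]
    exact hfy

/-- the critical orbit leaves the disc of radius `2` outside the Multibrot set -/
theorem exists_big (hd2 : 2 ≤ d) {y : ℂ} (hy : y ∉ multibrotSet d) :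
    ∃ m : ℕ, 2 < ‖P d (m + 1) y‖ := by
  have h1 : ¬ ∀ k, ‖P d k y‖ ≤ 2 := fun h => hy ((mem_multibrot_iff hd2 y).2 h)
  push Not at h1
  obtain ⟨k, hk⟩ := h1
  cases k with
  | zero =>
    rw [P_zero, norm_zero] at hk
    linarith
  | succ m => exact ⟨m, hk⟩

/-- **The harmonic measure has full support.** -/
theorem full_support (hd2 : 2 ≤ d) (hψ : IsExteriorMap (multibrotSet d) ψ) {x : ℂ}
    (hx : x ∈ frontier (multibrotSet d)) {r : ℝ} (hr : 0 < r) : volume (Ang ψ x r) ≠ 0 := by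
  obtain ⟨β, hβ⟩ := exists_beta (d := d) hd2
  have hMc := (isCompact_multibrot hd2).isClosed
  have hxM : x ∈ multibrotSet d := hMc.frontier_subset hx
  -- an exterior point near `x`
  have hxc : x ∈ closure (multibrotSet d)ᶜ := by
    rw [frontier_eq_closure_inter_closure] at hx
    exact hx.2
  obtain ⟨y, hyM, hy⟩ := Metric.mem_closure_iff.1 hxc r hr
  obtain ⟨ρ, hρ⟩ : ∃ ρ, ρ = ‖y - x‖ := ⟨_, rfl⟩
  have hρ0 : 0 < ρ := by
    rw [hρ]
    apply norm_pos_iff.2
    rw [sub_ne_zero]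
    rintro rfl
    exact hyM hxM
  have hρr : ρ < r := by
    rw [hρ, ← dist_eq_norm, dist_comm]
    exact hy
  obtain ⟨m, hm⟩ := exists_big hd2 hyM
  obtain ⟨g, hg⟩ : ∃ g : ℂ → ℝ, g = fun z => posLog (‖P d (m + 1) z‖ / 2) := ⟨_, rfl⟩
  have hgc : Continuous g := by
    rw [hg]
    apply Real.continuous_posLog.comp
    exact (Pool.Agent.H713R2.differentiable_P d (m + 1)).continuous.norm.div_const _
  have hg0 : ∀ z, 0 ≤ g z := fun z => by rw [hg]; exact Real.posLog_nonneg
  have hgy : 0 < g y := by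
    rw [hg]
    show 0 < posLog (‖P d (m + 1) y‖ / 2)
    have h1 : 1 < ‖P d (m + 1) y‖ / 2 := by rw [lt_div_iff₀ (by norm_num)]; linarith
    rw [Real.posLog_eq_log (by rw [abs_of_pos (by linarith)]; exact h1.le)]
    exact Real.log_pos h1
  have hgav := avg_pos hgc hg0 hρ0 hρ.symm hgy
  have hdR : (0 : ℝ) < d := by exact_mod_cast (by omega : 0 < d)
  have h2m : (0 : ℝ) < (d : ℝ) ^ m := by positivity
  obtain ⟨T, hT⟩ : ∃ T, T = circleAverage g x ρ / (d : ℝ) ^ m := ⟨_, rfl⟩
  have hT0 : 0 < T := by rw [hT]; positivity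
  have hTn : ∀ n, T + Real.log (sn n) ≤ circleAverage (UU β x ρ) 0 (sn n) := by
    intro n
    obtain ⟨s, hs⟩ : ∃ s, s = sn n := ⟨_, rfl⟩
    have hs0 : 0 < s := by rw [hs]; exact sn_pos n
    have hs1 : s < 1 := by rw [hs]; exact sn_lt n
    rw [← hs]
    have hlogs : Real.log s < 0 := Real.log_neg hs0 hs1
    have hgi : CircleIntegrable g x ρ := hgc.continuousOn.circleIntegrable'
    have hli : CircleIntegrable (fun z => g z / (d : ℝ) ^ m + Real.log s) x ρ := by
      have h2 : CircleIntegrable (fun z => g z / (d : ℝ) ^ m) x ρ := by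
        exact IntervalIntegrable.div_const hgi _
      exact h2.add (circleIntegrable_const _ _ _)
    have hkey := lower_II hβ hxM hρ0 hs0 hs1 hli (fun z hz => by
      by_cases hzM : z ∈ multibrotSet d
      · rw [avg_mem hβ hzM hs0 hs1]
        have h1 := (mem_multibrot_iff hd2 z).1 hzM (m + 1)
        have h2 : g z = 0 := by
          rw [hg]
          show posLog (‖P d (m + 1) z‖ / 2) = 0
          rw [Real.posLog_eq_zero_iff, abs_of_nonneg (by positivity)]
          linarith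
        rw [h2, zero_div, zero_add]
        exact hlogs.le
      · have h1 : z ∈ (multibrotSet d)ᶜ := hzM
        rw [← hψ.image] at h1
        obtain ⟨w, hw, rfl⟩ := h1
        have hw' : 1 < ‖w‖ := hw
        have h3 := Pool.Agent.W677.MC.P_le_two hd2 hψ hw m
        have h4 : (1 : ℝ) ≤ ‖w‖ ^ (d ^ m) := one_le_pow₀ hw'.le
        have h6 : g (ψ w) ≤ (d : ℝ) ^ m * Real.log ‖w‖ := by
          rw [hg]
          show posLog (‖P d (m + 1) (ψ w)‖ / 2) ≤ _
          have e : posLog (‖w‖ ^ (d ^ m)) = (d : ℝ) ^ m * Real.log ‖w‖ := by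
            rw [Real.posLog_eq_log (by rw [abs_of_pos (by positivity)]; exact h4), Real.log_pow]
            push_cast
            ring
          rw [← e]
          apply Real.posLog_le_posLog (by positivity)
          linarith
        have h8 : g (ψ w) / (d : ℝ) ^ m ≤ Real.log ‖w‖ := by
          rw [div_le_iff₀ h2m]
          linarith
        have e1 := avg_ext hβ hw hs0 hs1
        rw [← exteriorMap_unique hβ hψ hw] at e1
        rw [e1]
        have h9 : Real.log (s * ‖w‖) ≤ posLog (s * ‖w‖) := le_max_right _ _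
        rw [Real.log_mul hs0.ne' (by linarith)] at h9
        linarith)
    refine le_trans (le_of_eq ?_) hkey
    have hi := integrable_of hgi
    rw [hT, avg_eq, avg_eq]
    have i2 : Integrable (fun θ => g (circleMap x ρ θ) / (d : ℝ) ^ m) cm := hi.div_const _
    rw [integral_add i2 (integrable_const _), integral_div]
    simp
  obtain ⟨δ, hδ, hgc'⟩ := green_cont hd2 hxM (half_pos hT0)
  obtain ⟨ρ', hρ'⟩ : ∃ ρ', ρ' = min δ (ρ / 2) := ⟨_, rfl⟩
  have hρ'0 : 0 < ρ' := by rw [hρ']; positivity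
  have hρ'ρ : ρ' < ρ := by
    have : ρ' ≤ ρ / 2 := by rw [hρ']; exact min_le_right _ _
    linarith
  have hρ'δ : ρ' ≤ δ := by rw [hρ']; exact min_le_left _ _
  have h1 := le_vol' hd2 hβ hψ (ae_land hd2 hψ) hxM hρ'0 hρ'ρ hρr (half_pos hT0).le
    (fun w hw hw2 => hgc' ψ hψ w hw (hw2.trans hρ'δ)) hTn
  intro h0
  rw [h0] at h1
  simp only [ENNReal.toReal_zero, mul_zero, zero_div] at h1
  linarith

/-- landing points of the external rays belong to the boundary -/
theorem land_frontier (hd2 : 2 ≤ d) (hψ : IsExteriorMap (multibrotSet d) ψ) {θ : ℝ} {c : ℂ}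
    (hlim : Tendsto (fun ρ : ℝ => ψ (ρ * exp (θ * I))) (𝓝[>] 1) (𝓝 c)) :
    c ∈ frontier (multibrotSet d) := by
  have h1 := Pool.Agent.R240.land_mem hd2 hψ hlim
  rw [frontier_eq_closure_inter_closure]
  refine ⟨subset_closure h1, ?_⟩
  apply mem_closure_of_tendsto hlim
  filter_upwards [self_mem_nhdsWithin] with ρ hρ
  have hρ1 : 1 < ρ := hρ
  rw [← hψ.image]
  apply mem_image_of_mem
  show 1 < ‖(ρ : ℂ) * exp (θ * I)‖
  rw [norm_mul, norm_exp_ofReal_mul_I, mul_one, Complex.norm_real, Real.norm_eq_abs,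
    abs_of_pos (by linarith)]
  exact hρ1

/-- **The parameters with the Lyapunov exponent `log d` are dense in the boundary.** -/
theorem lyap_dense (hd2 : 2 ≤ d) {x : ℂ} (hx : x ∈ frontier (multibrotSet d)) {r : ℝ}
    (hr : 0 < r) : ∃ c₀ ∈ frontier (multibrotSet d), ‖c₀ - x‖ < r ∧
      Pool.Agent.Y298.CA.Lyap d (Real.log d) c₀ := by
  obtain ⟨β, hβ⟩ := exists_beta (d := d) hd2
  have hψ := exteriorMap_of_beta hβ
  have h1 := full_support hd2 hψ hx hr
  have h2 : ∃ᵐ θ ∂volume, θ ∈ Ang (fun w => w * β w⁻¹) x r := by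
    rw [frequently_ae_mem_iff]
    exact h1
  obtain ⟨θ, hθ1, hθ2⟩ := (h2.and_eventually (Pool.Agent.N772.TC.ae_lyap hd2 hψ)).exists
  obtain ⟨-, ζ, hζ, hlim⟩ := hθ1
  rw [Pool.Agent.N772.TC.bd_eq hlim] at hθ2
  refine ⟨ζ, land_frontier hd2 hψ hlim, ?_, hθ2⟩
  rwa [mem_ball, dist_eq_norm] at hζ

end Pool.Agent.Helper95.GB
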