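import Pool.Agent.Helper95.GB.Zoom

set_option autoImplicit false

/-! # Topologically typical boundary parameters -/

namespace Pool.Agent.Helper95.GB

open Complex Metric Set Filter Topology MeasureTheory
open N62a1eb23
open Pool.Agent.H712R2 (P fc P_zero P_succ isCompact_multibrot)

variable {d : ℕ}

theorem Ren.shift {R R' s : ℝ} {n : ℕ} {l m e τ : ℂ} (h : Ren d R' n l m e) (hR : 0 < R)
    (hτ : ‖τ‖ ≤ s) (h1 : R + s ≤ R') (h2 : 1 / R' + s ≤ 1 / R) : Ren d R n l m (e + l * τ) := by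
  have hs : 0 ≤ s := (norm_nonneg _).trans hτ
  intro t z ht hz
  have e1 : e + l * τ + l * t = e + l * (t + τ) := by ring
  rw [e1]
  have h3 : ‖t + τ‖ ≤ R' := (norm_add_le _ _).trans (by linarith)
  obtain ⟨h4, h5⟩ := h (t + τ) z h3 (hz.trans (by linarith))
  refine ⟨?_, fun j hj0 hj => lt_of_le_of_lt ?_ (h5 j hj0 hj)⟩
  · have e2 : (fc d (e + l * (t + τ)))^[n] (m * z) / m - (z ^ d + t) =
        ((fc d (e + l * (t + τ)))^[n] (m * z) / m - (z ^ d + (t + τ))) + τ := by ring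
    rw [e2]
    refine (norm_add_le _ _).trans ?_
    linarith
  · gcongr
    linarith

theorem Tra.shift {K K' : Set ℂ} {n : ℕ} {l e τ : ℂ} (h : Tra d K' n l e)
    (hK : ∀ t ∈ K, ∀ p, Att d p t → t + τ ∈ K' ∧ Att d p (t + τ)) : Tra d K n l (e + l * τ) := by
  intro t ht p hp
  obtain ⟨h1, h2⟩ := hK t ht p hp
  have h3 := h (t + τ) h1 p h2
  have e1 : e + l * τ + l * t = e + l * (t + τ) := by ring
  rw [e1]
  exact h3

/-- a compact exhaustion of the set of hyperbolic parameters -/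
def KK (d j : ℕ) : Set ℂ := {t | ‖t‖ ≤ j ∧ ball t (1 / ((j : ℝ) + 1)) ⊆ Hyp d}

theorem KK_sub (d j : ℕ) : KK d j ⊆ Hyp d := fun t ht =>
  ht.2 (mem_ball_self (by positivity))

theorem KK_compact (d j : ℕ) : IsCompact (KK d j) := by
  have hcl : IsClosed (KK d j) := by
    rw [← isSeqClosed_iff_isClosed]
    intro u t hu hlim
    have h1 : Tendsto (fun k => ‖u k‖) atTop (𝓝 ‖t‖) := hlim.norm
    refine ⟨le_of_tendsto' h1 fun k => (hu k).1, ?_⟩
    intro x hx
    rw [mem_ball] at hx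
    have h2 : Tendsto (fun k => dist x (u k)) atTop (𝓝 (dist x t)) :=
      tendsto_const_nhds.dist hlim
    obtain ⟨k, hk⟩ := (h2.eventually_lt_const hx).exists
    exact (hu k).2 hk
  apply (isCompact_closedBall (0 : ℂ) (j : ℝ)).of_isClosed_subset hcl
  intro t ht
  rw [mem_closedBall, dist_zero_right]
  exact ht.1

theorem ball_const (hd : 2 ≤ d) {t τ : ℂ} {ε : ℝ} (h : ball t ε ⊆ Hyp d) (hτ : ‖τ‖ < ε) {p : ℕ}
    (hp : Att d p t) : Att d p (t + τ) := by
  have hε : 0 < ε := (norm_nonneg _).trans_lt hτ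
  refine att_const hd isOpen_ball (convex_ball _ _).isPreconnected (h.trans (hyp_sub hd))
    (mem_ball_self hε) ?_ hp
  rw [mem_ball, dist_eq_norm, add_sub_cancel_left]
  exact hτ

theorem KK_step (hd : 2 ≤ d) (j : ℕ) {τ : ℂ} (hτ : ‖τ‖ < 1 / (((j : ℝ) + 1) * ((j : ℝ) + 2))) :
    ∀ t ∈ KK d j, ∀ p, Att d p t → t + τ ∈ KK d (j + 1) ∧ Att d p (t + τ) := by
  have hj : (0 : ℝ) ≤ j := Nat.cast_nonneg j
  have e1 : 1 / ((j : ℝ) + 2) + 1 / (((j : ℝ) + 1) * ((j : ℝ) + 2)) = 1 / ((j : ℝ) + 1) := by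
    field_simp
    ring
  have e0 : 0 < 1 / ((j : ℝ) + 2) := by positivity
  have e2 : 1 / ((j : ℝ) + 1) ≤ 1 := by
    rw [div_le_one (by positivity)]
    linarith
  intro t ht p hp
  refine ⟨⟨?_, ?_⟩, ball_const hd ht.2 (by linarith) hp⟩
  · have := norm_add_le t τ
    have h1 := ht.1
    push_cast
    linarith
  · intro x hx
    apply ht.2
    rw [mem_ball, dist_eq_norm] at hx ⊢
    push_cast at hx
    rw [show (j : ℝ) + 1 + 1 = j + 2 by ring] at hx
    have h1 : x - t = (x - (t + τ)) + τ := by ring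
    rw [h1]
    refine (norm_add_le _ _).trans_lt ?_
    linarith

/-- a copy of quality `j`, at which `c₀` corresponds to `a` -/
def G (d j : ℕ) (a c₀ : ℂ) : Prop :=
  ∃ (n : ℕ) (l m : ℂ), (j : ℝ) ≤ n ∧ 0 < ‖l‖ ∧ ‖l‖ ≤ 1 / j ∧ 0 < ‖m‖ ∧ ‖m‖ ≤ 1 / j ∧
    Ren d j n l m (c₀ - l * a) ∧ Tra d (KK d j) n l (c₀ - l * a)

theorem step_ineq {j : ℕ} (hj : 1 ≤ j) :
    1 / ((j + 1 : ℕ) : ℝ) + 1 / (((j : ℝ) + 1) * ((j : ℝ) + 2)) ≤ 1 / (j : ℝ) := by
  have hj : (1 : ℝ) ≤ j := by exact_mod_cast hj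
  push_cast
  rw [div_add_div _ _ (by positivity) (by positivity), div_le_div_iff₀ (by positivity) (by positivity)]
  nlinarith

theorem tau_le (j : ℕ) : 1 / (((j : ℝ) + 1) * ((j : ℝ) + 2)) ≤ 1 := by
  have hj : (0 : ℝ) ≤ j := Nat.cast_nonneg j
  rw [div_le_one (by positivity)]
  nlinarith

/-- openness -/
theorem G_open (hd : 2 ≤ d) {j : ℕ} (hj : 1 ≤ j) {a c₀ : ℂ} (h : G d (j + 1) a c₀) :
    ∀ᶠ c in 𝓝 c₀, G d j a c := by
  obtain ⟨n, l, m, h1, h2, h3, h4, h5, h6, h7⟩ := h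
  have hj1 : (1 : ℝ) ≤ j := by exact_mod_cast hj
  have hτ0 : 0 < 1 / (((j : ℝ) + 1) * ((j : ℝ) + 2)) := by positivity
  have hjj : 1 / ((j + 1 : ℕ) : ℝ) ≤ 1 / (j : ℝ) := by
    apply one_div_le_one_div_of_le (by positivity)
    push_cast
    linarith
  filter_upwards [ball_mem_nhds c₀ (mul_pos h2 hτ0)] with c hc
  rw [mem_ball, dist_eq_norm] at hc
  have hl0 : l ≠ 0 := norm_pos_iff.1 h2
  have hτ : ‖(c - c₀) / l‖ < 1 / (((j : ℝ) + 1) * ((j : ℝ) + 2)) := by
    rw [norm_div, div_lt_iff₀ h2, mul_comm _ ‖l‖]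
    exact hc
  have e1 : c - l * a = (c₀ - l * a) + l * ((c - c₀) / l) := by
    field_simp
    ring
  refine ⟨n, l, m, ?_, h2, h3.trans hjj, h4, h5.trans hjj, ?_, ?_⟩
  · push_cast at h1
    linarith
  · rw [e1]
    refine h6.shift (by positivity) hτ.le ?_ (step_ineq hj)
    have := tau_le j
    push_cast
    linarith
  · rw [e1]
    exact h7.shift (KK_step hd j hτ)

/-- density -/
theorem G_dense (hd : 2 ≤ d) {j : ℕ} (hj : 1 ≤ j) {a x : ℂ} (ha : a ∈ frontier (multibrotSet d))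
    (hx : x ∈ frontier (multibrotSet d)) {r : ℝ} (hr : 0 < r) :
    ∃ y ∈ frontier (multibrotSet d), ‖y - x‖ < r ∧ G d j a y := by
  have hj1 : (1 : ℝ) ≤ j := by exact_mod_cast hj
  have hτ0 : 0 < 1 / (((j : ℝ) + 1) * ((j : ℝ) + 2)) := by positivity
  have hjj : 1 / ((j + 1 : ℕ) : ℝ) ≤ 1 / (j : ℝ) := by
    apply one_div_le_one_div_of_le (by positivity)
    push_cast
    linarith
  obtain ⟨n, l, m, e, y, h1, h2, h3, h4, h5, h6, h7, h8, h9, h10⟩ :=
    exists_copy hd hx ha (KK_compact d (j + 1)) (KK_sub d (j + 1))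
      (R := ((j + 1 : ℕ) : ℝ)) (by positivity) hτ0 hr
  have hl0 : l ≠ 0 := norm_pos_iff.1 h2
  have hτ : ‖(y - (e + l * a)) / l‖ < 1 / (((j : ℝ) + 1) * ((j : ℝ) + 2)) := by
    rw [norm_div, div_lt_iff₀ h2, mul_comm _ ‖l‖]
    exact h9
  have e1 : y - l * a = e + l * ((y - (e + l * a)) / l) := by
    field_simp
    ring
  refine ⟨y, h8, h10, n, l, m, ?_, h2, h3.trans hjj, h4, h5.trans hjj, ?_, ?_⟩
  · push_cast at h1
    linarith
  · rw [e1]
    refine h6.shift (by positivity) hτ.le ?_ (step_ineq hj)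
    have := tau_le j
    push_cast
    linarith
  · rw [e1]
    exact h7.shift (KK_step hd j hτ)

/-- the parameters at which all hyperbolic parameters appear at arbitrarily small scales, at all
positions -/
def Zooms (d : ℕ) (c₀ : ℂ) : Prop :=
  ∀ t₀ ∈ frontier (multibrotSet d), ∀ K ⊆ Hyp d, IsCompact K → ∀ R : ℝ, 0 < R →
    ∃ (n : ℕ) (l m : ℂ), R ≤ n ∧ 0 < ‖l‖ ∧ ‖l‖ ≤ 1 / R ∧ 0 < ‖m‖ ∧ ‖m‖ ≤ 1 / R ∧
      Ren d R n l m (c₀ - l * t₀) ∧ Tra d K n l (c₀ - l * t₀)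

theorem zooms_of (hd : 2 ≤ d) {A : Set ℂ} (hA : ∀ t ∈ frontier (multibrotSet d), ∀ r : ℝ, 0 < r →
    ∃ a ∈ A, ‖a - t‖ < r) {c₀ : ℂ} (h : ∀ j : ℕ, 1 ≤ j → ∀ a ∈ A, G d j a c₀) : Zooms d c₀ := by
  intro t₀ ht₀ K hKH hK R hR
  obtain ⟨ε, hε, hεK⟩ := hK.exists_thickening_subset_open (isOpen_hyp d) hKH
  obtain ⟨B, hB⟩ := hK.isBounded.exists_norm_le
  obtain ⟨j, hj⟩ := exists_nat_ge (max (R + 1) (max (|B| + 1) (2 / ε)))
  have hj1 : R + 1 ≤ j := (le_max_left _ _).trans hj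
  have hj2 : |B| + 1 ≤ j := (le_max_left _ _).trans ((le_max_right _ _).trans hj)
  have hj3 : 2 / ε ≤ j := (le_max_right _ _).trans ((le_max_right _ _).trans hj)
  have hj0 : (0 : ℝ) < j := by linarith
  have hj4 : 1 ≤ j := by exact_mod_cast (by linarith : (1 : ℝ) ≤ j)
  have hj5 : 1 / ((j : ℝ) + 1) ≤ ε / 2 := by
    rw [div_le_iff₀ hε] at hj3
    rw [div_le_iff₀ (by positivity)]
    nlinarith
  obtain ⟨s, hs⟩ : ∃ s, s = min 1 (min (ε / 2) (1 / (R * (R + 1)))) := ⟨_, rfl⟩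
  have hs0 : 0 < s := by rw [hs]; positivity
  have hs1 : s ≤ 1 := by rw [hs]; exact min_le_left _ _
  have hs2 : s ≤ ε / 2 := by rw [hs]; exact (min_le_right _ _).trans (min_le_left _ _)
  have hs3 : s ≤ 1 / (R * (R + 1)) := by rw [hs]; exact (min_le_right _ _).trans (min_le_right _ _)
  obtain ⟨a, ha, hat⟩ := hA t₀ ht₀ s hs0
  obtain ⟨n, l, m, h1, h2, h3, h4, h5, h6, h7⟩ := h j hj4 a ha
  have hjR : 1 / (j : ℝ) ≤ 1 / R := one_div_le_one_div_of_le hR (by linarith)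
  have e1 : c₀ - l * t₀ = (c₀ - l * a) + l * (a - t₀) := by ring
  refine ⟨n, l, m, by linarith, h2, h3.trans hjR, h4, h5.trans hjR, ?_, ?_⟩
  · rw [e1]
    refine h6.shift hR hat.le (by linarith) ?_
    have h8 : 1 / (j : ℝ) ≤ 1 / (R + 1) := one_div_le_one_div_of_le (by linarith) hj1
    have h9 : 1 / (R + 1) + 1 / (R * (R + 1)) = 1 / R := by field_simp
    linarith
  · rw [e1]
    apply h7.shift
    intro t ht p hp
    have hball : ball t ε ⊆ Hyp d := by
      refine Subset.trans ?_ hεK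
      intro x hx
      exact mem_thickening_iff.2 ⟨t, ht, hx⟩
    refine ⟨⟨?_, ?_⟩, ball_const hd hball (by linarith) hp⟩
    · have e2 := norm_add_le t (a - t₀)
      have e3 := hB t ht
      have e4 := le_abs_self B
      linarith
    · intro x hx
      apply hball
      rw [mem_ball, dist_eq_norm] at hx ⊢
      have h8 : x - t = (x - (t + (a - t₀))) + (a - t₀) := by ring
      rw [h8]
      refine (norm_add_le _ _).trans_lt ?_
      linarith

/-- **A topologically typical boundary parameter has all copies at all positions.** -/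
theorem zooms_residual (hd : 2 ≤ d) :
    ∀ᶠ c₀ : frontier (multibrotSet d) in residual (frontier (multibrotSet d)),
      Zooms d (c₀ : ℂ) := by
  obtain ⟨A, hAc, hAd⟩ := TopologicalSpace.exists_countable_dense (frontier (multibrotSet d))
  have h1 : ∀ᶠ c₀ : frontier (multibrotSet d) in residual (frontier (multibrotSet d)),
      ∀ j : ℕ, ∀ a ∈ A, 1 ≤ j → G d j (a : ℂ) (c₀ : ℂ) := by
    rw [eventually_countable_forall]
    intro j
    rw [eventually_countable_ball hAc]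
    intro a ha
    by_cases hj : 1 ≤ j
    · have hU : {c₀ : frontier (multibrotSet d) | (c₀ : ℂ) ∈ interior {c | G d j (a : ℂ) c}} ∈
          residual (frontier (multibrotSet d)) := by
        apply residual_of_dense_open
        · exact isOpen_interior.preimage continuous_subtype_val
        · intro x
          rw [Metric.mem_closure_iff]
          intro r hr
          obtain ⟨y, hy1, hy2, hy3⟩ := G_dense hd (j := j + 1) (by omega) a.2 x.2 hr
          refine ⟨⟨y, hy1⟩, ?_, ?_⟩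
          · show y ∈ interior {c | G d j (a : ℂ) c}
            rw [mem_interior_iff_mem_nhds]
            exact G_open hd hj hy3
          · rw [Subtype.dist_eq, dist_comm, dist_eq_norm]
            exact hy2
      filter_upwards [hU] with c₀ hc₀ _
      have h2 : (c₀ : ℂ) ∈ {c | G d j (a : ℂ) c} := interior_subset hc₀
      exact h2
    · exact Eventually.of_forall fun _ h => absurd h hj
  filter_upwards [h1] with c₀ hc₀
  refine zooms_of hd (A := Subtype.val '' A) ?_ ?_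
  · intro t ht r hr
    obtain ⟨a, ha1, ha2⟩ := hAd.exists_dist_lt (⟨t, ht⟩ : frontier (multibrotSet d)) hr
    refine ⟨a, ⟨a, ha1, rfl⟩, ?_⟩
    rw [Subtype.dist_eq, dist_comm, dist_eq_norm] at ha2
    exact ha2
  · rintro j hj _ ⟨a, ha, rfl⟩
    exact hc₀ j a ha hj

end Pool.Agent.Helper95.GB
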