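import Pool.Agent.Helper95.GB.Cusp
import Pool.Agent.Helper95.GB.Typ

set_option autoImplicit false

/-! # Density one at the cusp -/

namespace Pool.Agent.Helper95.GB

open Complex Metric Set Filter Topology MeasureTheory
open N62a1eb23
open Pool.Agent.H712R2 (P fc P_zero P_succ isCompact_multibrot mem_multibrot_iff)

/-- areas of the images under affine maps -/
theorem vol_affine (b c : ℂ) (S : Set ℂ) :
    (volume ((fun w : ℂ => b + c * w) '' S)).toReal = ‖c‖ ^ 2 * (volume S).toReal := by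
  have h1 : (fun w : ℂ => b + c * w) '' S = (fun w => b + w) '' (LinearMap.mul ℝ ℂ c '' S) := by
    rw [image_image]
    rfl
  have h2 : LinearMap.det (LinearMap.mul ℝ ℂ c) = ‖c‖ ^ 2 := by
    have := Algebra.norm_complex_apply c
    rw [Algebra.norm_apply, Complex.normSq_eq_norm_sq] at this
    exact this
  rw [h1, image_add_left, measure_preimage_add, Measure.addHaar_image_linearMap, h2,
    ENNReal.toReal_mul, ENNReal.toReal_ofReal (abs_nonneg _), abs_of_nonneg (by positivity)]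

theorem im_null : volume {w : ℂ | w.im = 0} = 0 := by
  have h1 : {w : ℂ | w.im = 0} = (LinearMap.ker Complex.imLm : Submodule ℝ ℂ) := by
    ext w
    simp
  rw [h1]
  apply Measure.addHaar_submodule
  intro h
  have h2 : Complex.I ∈ (LinearMap.ker Complex.imLm : Submodule ℝ ℂ) := by
    rw [h]
    exact Submodule.mem_top
  simp at h2

theorem vol_ball_pi (c : ℂ) {r : ℝ} (hr : 0 ≤ r) :
    (volume (ball c r)).toReal = Real.pi * r ^ 2 := by
  rw [Complex.volume_ball, ENNReal.toReal_mul, ENNReal.toReal_pow, ENNReal.toReal_ofReal hr]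
  simp [mul_comm]

theorem exists_root_neg {w : ℂ} (hw : w.im ≠ 0) : ∃ u : ℂ, u.re < 0 ∧ u ^ 2 = w := by
  obtain ⟨u, hu⟩ : ∃ u : ℂ, u ^ 2 = w := IsAlgClosed.exists_pow_nat_eq w (by norm_num)
  have h1 : u.re ≠ 0 := by
    intro h
    apply hw
    rw [← hu, sq, Complex.mul_im, h]
    ring
  rcases lt_or_gt_of_ne h1 with h2 | h2
  · exact ⟨u, h2, hu⟩
  · refine ⟨-u, ?_, ?_⟩
    · rw [Complex.neg_re]
      linarith
    · rw [neg_sq, hu]

/-- if an increasing union has full measure in `B`, some member has nearly full measure -/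
theorem exists_nearly {A : ℕ → Set ℂ} (hA : Monotone A) {S : Set ℂ} (hS : volume S ≠ ⊤)
    (hAS : ∀ k, A k ⊆ S) (hU : volume (S \ ⋃ k, A k) = 0) {x : ℝ} (hx : x < (volume S).toReal) :
    ∃ k, x < (volume (A k)).toReal := by
  have h1 : volume (⋃ k, A k) = volume S := by
    apply le_antisymm (measure_mono (iUnion_subset hAS))
    calc volume S ≤ volume ((⋃ k, A k) ∪ (S \ ⋃ k, A k)) := by
          apply measure_mono
          intro y hy
          by_cases h : y ∈ ⋃ k, A k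
          · exact Or.inl h
          · exact Or.inr ⟨hy, h⟩
      _ ≤ volume (⋃ k, A k) + volume (S \ ⋃ k, A k) := measure_union_le _ _
      _ = _ := by rw [hU, add_zero]
  have h2 := tendsto_measure_iUnion_atTop (μ := (volume : Measure ℂ)) hA
  rw [h1] at h2
  have h3 : Tendsto (fun k => (volume (A k)).toReal) atTop (𝓝 (volume S).toReal) :=
    (ENNReal.tendsto_toReal hS).comp h2
  exact (h3.eventually_const_lt hx).exists

variable {N : ℕ} {a : ℝ}

/-- **The main component has density one at its cusp.** -/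
theorem cusp_thick (ha : 0 < a) (h : ((N : ℝ) + 2) * a ^ (N + 1) = 1) {ε : ℝ} (hε : 0 < ε) :
    ∃ (K : Set ℂ) (ρ : ℝ), 0 < ρ ∧ IsCompact K ∧ IsConnected K ∧ (∀ t ∈ K, Att (N + 2) 1 t) ∧
      (1 - ε) * (Real.pi * ρ ^ 2) < (volume (K ∩ ball (ph N a) ρ)).toReal := by
  have hpi := Real.pi_pos
  obtain ⟨κ, hκ⟩ : ∃ κ, κ = qq N a 0 := ⟨_, rfl⟩
  have hκn : κ ≠ 0 := by rw [hκ]; exact qq_zero ha
  have hκ0 : 0 < ‖κ‖ := norm_pos_iff.2 hκn
  obtain ⟨T, hT⟩ : ∃ T : ℝ → ℂ → ℂ, T = fun (s : ℝ) (w : ℂ) =>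
      ph N a + (κ * (s : ℂ) ^ 2) * w := ⟨_, rfl⟩
  obtain ⟨sq, hsq⟩ : ∃ sq : ℕ → ℝ, sq = fun n : ℕ => 1 / ((n : ℝ) + 1) := ⟨_, rfl⟩
  have hs0 : ∀ n, 0 < sq n := fun n => by rw [hsq]; positivity
  have hslim : Tendsto sq atTop (𝓝[>] 0) := by
    apply tendsto_nhdsWithin_of_tendsto_nhds_of_eventually_within
    · rw [hsq]
      exact tendsto_one_div_add_atTop_nhds_zero_nat (𝕜 := ℝ)
    · exact Eventually.of_forall fun n => hs0 n
  have hvol1 : (volume (ball (0 : ℂ) 1)).toReal = Real.pi := by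
    rw [vol_ball_pi _ zero_le_one]
    ring
  -- first the scale
  obtain ⟨A, hA⟩ : ∃ A : ℕ → Set ℂ, A = fun k => {w | w ∈ ball (0 : ℂ) 1 ∧ ∀ n ≥ k,
      ∃ ζ : ℂ, ‖ζ‖ < a ∧ ph N ζ = T (sq n) w} := ⟨_, rfl⟩
  obtain ⟨k, hk⟩ : ∃ k, (1 - ε) * Real.pi < (volume (A k)).toReal := by
    apply exists_nearly (S := ball (0 : ℂ) 1)
    · intro i j hij w hw
      rw [hA] at hw ⊢
      exact ⟨hw.1, fun n hn => hw.2 n (hij.trans hn)⟩
    · exact measure_ball_lt_top.ne
    · intro k w hw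
      rw [hA] at hw
      exact hw.1
    · refine measure_mono_null ?_ im_null
      intro w hw
      by_contra hcon
      apply hw.2
      obtain ⟨u, hu1, hu2⟩ := exists_root_neg hcon
      obtain ⟨k, hk⟩ := eventually_atTop.1 (hslim.eventually (in_main ha h hu1))
      refine mem_iUnion.2 ⟨k, ?_⟩
      rw [hA]
      refine ⟨hw.1, fun n hn => ?_⟩
      obtain ⟨ζ, hζ1, hζ2⟩ := hk n hn
      refine ⟨ζ, hζ1, ?_⟩
      rw [hζ2, hT, ← hκ, mul_pow, hu2]
      ring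
    · rw [hvol1]
      nlinarith
  -- then the compact set
  obtain ⟨s, hs⟩ : ∃ s, s = sq k := ⟨_, rfl⟩
  have hspos : 0 < s := by rw [hs]; exact hs0 k
  obtain ⟨S, hS⟩ : ∃ S : Set ℂ, S = {w | w ∈ ball (0 : ℂ) 1 ∧ ∃ ζ : ℂ, ‖ζ‖ < a ∧
      ph N ζ = T s w} := ⟨_, rfl⟩
  have hSb : S ⊆ ball (0 : ℂ) 1 := fun w hw => by
    rw [hS] at hw
    exact hw.1
  have hSfin : volume S ≠ ⊤ := ((measure_mono hSb).trans_lt measure_ball_lt_top).ne
  have hAS : A k ⊆ S := by
    intro w hw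
    rw [hA] at hw
    rw [hS, hs]
    exact ⟨hw.1, hw.2 k le_rfl⟩
  obtain ⟨Bm, hB⟩ : ∃ Bm : ℕ → Set ℂ, Bm = fun (m : ℕ) => {w | w ∈ ball (0 : ℂ) 1 ∧
      T s w ∈ ph N '' closedBall 0 (a * (1 - 1 / ((m : ℝ) + 1)))} := ⟨_, rfl⟩
  have hrad : ∀ m : ℕ, 0 ≤ a * (1 - 1 / ((m : ℝ) + 1)) ∧ a * (1 - 1 / ((m : ℝ) + 1)) < a := by
    intro m
    have h1 : 1 / ((m : ℝ) + 1) ≤ 1 := by
      rw [div_le_one (by positivity)]
      have : (0 : ℝ) ≤ m := Nat.cast_nonneg m
      linarith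
    have h2 : 0 < 1 / ((m : ℝ) + 1) := by positivity
    constructor
    · apply mul_nonneg ha.le
      linarith
    · nlinarith
  obtain ⟨m, hm⟩ : ∃ m, (1 - ε) * Real.pi < (volume (Bm m)).toReal := by
    apply exists_nearly (S := S)
    · intro i j hij w hw
      rw [hB] at hw ⊢
      refine ⟨hw.1, ?_⟩
      refine image_mono (closedBall_subset_closedBall ?_) hw.2
      have : 1 / ((j : ℝ) + 1) ≤ 1 / ((i : ℝ) + 1) := by
        apply one_div_le_one_div_of_le (by positivity)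
        have : (i : ℝ) ≤ j := by exact_mod_cast hij
        linarith
      nlinarith
    · exact hSfin
    · intro m w hw
      rw [hB] at hw
      obtain ⟨hw1, ζ, hζ, hζ2⟩ := hw
      rw [mem_closedBall, dist_zero_right] at hζ
      rw [hS]
      exact ⟨hw1, ζ, hζ.trans_lt (hrad m).2, hζ2⟩
    · refine measure_mono_null (t := ∅) ?_ measure_empty
      rintro w ⟨hw1, hw2⟩
      exfalso
      apply hw2
      rw [hS] at hw1
      obtain ⟨hw1, ζ, hζ, hζ2⟩ := hw1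
      obtain ⟨m, hm⟩ := exists_nat_one_div_lt (show 0 < 1 - ‖ζ‖ / a by
        rw [sub_pos, div_lt_one ha]
        exact hζ)
      refine mem_iUnion.2 ⟨m, ?_⟩
      rw [hB]
      refine ⟨hw1, ζ, ?_, hζ2⟩
      rw [mem_closedBall, dist_zero_right]
      have h1 : ‖ζ‖ / a < 1 - 1 / ((m : ℝ) + 1) := by linarith
      rw [div_lt_iff₀ ha] at h1
      linarith
    · refine hk.trans_le (ENNReal.toReal_mono hSfin (measure_mono hAS))
  refine ⟨ph N '' closedBall 0 (a * (1 - 1 / ((m : ℝ) + 1))), ‖κ‖ * s ^ 2, by positivity,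
    (isCompact_closedBall _ _).image (ph_cont N), ?_, ?_, ?_⟩
  · refine IsConnected.image ?_ _ (ph_cont N).continuousOn
    exact ⟨⟨0, mem_closedBall_self (hrad m).1⟩, (convex_closedBall _ _).isPreconnected⟩
  · rintro _ ⟨ζ, hζ, rfl⟩
    rw [mem_closedBall, dist_zero_right] at hζ
    exact att_main ha h (hζ.trans_lt (hrad m).2)
  · have h1 : T s '' Bm m ⊆ ph N '' closedBall 0 (a * (1 - 1 / ((m : ℝ) + 1))) ∩
        ball (ph N a) (‖κ‖ * s ^ 2) := by
      rintro _ ⟨w, hw, rfl⟩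
      rw [hB] at hw
      refine ⟨hw.2, ?_⟩
      have h2 := hw.1
      rw [mem_ball, dist_zero_right] at h2
      rw [mem_ball, dist_eq_norm, hT]
      show ‖ph N a + (κ * (s : ℂ) ^ 2) * w - ph N a‖ < _
      rw [add_sub_cancel_left, norm_mul, norm_mul, norm_pow, Complex.norm_real,
        Real.norm_of_nonneg hspos.le]
      calc ‖κ‖ * s ^ 2 * ‖w‖ < ‖κ‖ * s ^ 2 * 1 := by gcongr
        _ = _ := mul_one _
    have h2 : (volume (T s '' Bm m)).toReal = (‖κ‖ * s ^ 2) ^ 2 * (volume (Bm m)).toReal := by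
      rw [hT, vol_affine, norm_mul, norm_pow, Complex.norm_real, Real.norm_of_nonneg hspos.le]
    have h3 : (volume (T s '' Bm m)).toReal ≤ (volume (ph N '' closedBall 0
        (a * (1 - 1 / ((m : ℝ) + 1))) ∩ ball (ph N a) (‖κ‖ * s ^ 2))).toReal := by
      apply ENNReal.toReal_mono _ (measure_mono h1)
      exact ((measure_mono inter_subset_right).trans_lt measure_ball_lt_top).ne
    refine lt_of_lt_of_le ?_ h3
    rw [h2]
    calc (1 - ε) * (Real.pi * (‖κ‖ * s ^ 2) ^ 2) = (‖κ‖ * s ^ 2) ^ 2 * ((1 - ε) * Real.pi) := by ring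
      _ < _ := by gcongr

/-- **Discs about typical parameters which are almost filled by one hyperbolic component.** -/
theorem thick {d : ℕ} (hd : 2 ≤ d) {c₀ : ℂ} (hc : Zooms d c₀) {ε : ℝ} (hε : 0 < ε) (M : ℕ) :
    ∃ᶠ r in 𝓝[>] (0 : ℝ), ∃ (n : ℕ) (V : Set ℂ), M ≤ n ∧ IsConnected V ∧ (∀ c ∈ V, Att d n c) ∧
      (1 - ε) * (Real.pi * r ^ 2) < (volume (V ∩ ball c₀ r)).toReal := by
  obtain ⟨N, rfl⟩ : ∃ N, d = N + 2 := ⟨d - 2, by omega⟩
  obtain ⟨a, ha, h⟩ := exists_a N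
  obtain ⟨K, ρ, hρ, hK, hKc, hKA, hvol⟩ := cusp_thick ha h hε
  have hfr := cusp_frontier ha h
  by_contra hcon
  rw [not_frequently] at hcon
  obtain ⟨δ, hδ, H⟩ := mem_nhdsGT_iff_exists_Ioc_subset.1 hcon
  have hδ' : 0 < δ := hδ
  obtain ⟨n, l, m, h1, h2, h3, -, -, -, h7⟩ := hc (ph N a) hfr K (fun t ht => ⟨1, hKA t ht⟩) hK
    (max (ρ / δ) M) (lt_max_of_lt_left (by positivity))
  have h4 : ‖l‖ * ρ ≤ δ := by
    have h3' : ‖l‖ ≤ 1 / (ρ / δ) :=
      h3.trans (one_div_le_one_div_of_le (by positivity) (le_max_left _ _))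
    rw [one_div_div, le_div_iff₀ hρ] at h3'
    exact h3'
  refine H ⟨mul_pos h2 hρ, h4⟩ ⟨n, (fun t => (c₀ - l * ph N a) + l * t) '' K, ?_, ?_, ?_, ?_⟩
  · exact_mod_cast (le_max_right _ _).trans h1
  · exact hKc.image _ (by fun_prop)
  · rintro _ ⟨t, ht, rfl⟩
    have := h7 t ht 1 (hKA t ht)
    rwa [mul_one] at this
  · have h5 : (fun t => (c₀ - l * ph N a) + l * t) '' (K ∩ ball (ph N a) ρ) ⊆
        (fun t => (c₀ - l * ph N a) + l * t) '' K ∩ ball c₀ (‖l‖ * ρ) := by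
      rintro _ ⟨t, ⟨ht1, ht2⟩, rfl⟩
      refine ⟨⟨t, ht1, rfl⟩, ?_⟩
      rw [mem_ball, dist_eq_norm] at ht2 ⊢
      rw [show c₀ - l * ph N a + l * t - c₀ = l * (t - ph N a) by ring, norm_mul]
      gcongr
    have h6 : (volume ((fun t => (c₀ - l * ph N a) + l * t) '' (K ∩ ball (ph N a) ρ))).toReal ≤
        (volume ((fun t => (c₀ - l * ph N a) + l * t) '' K ∩ ball c₀ (‖l‖ * ρ))).toReal := by
      apply ENNReal.toReal_mono _ (measure_mono h5)
      exact ((measure_mono inter_subset_right).trans_lt measure_ball_lt_top).ne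
    refine lt_of_lt_of_le ?_ h6
    rw [vol_affine]
    calc (1 - ε) * (Real.pi * (‖l‖ * ρ) ^ 2) = ‖l‖ ^ 2 * ((1 - ε) * (Real.pi * ρ ^ 2)) := by ring
      _ < _ := by gcongr

end Pool.Agent.Helper95.GB
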