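import Pool.Agent.Helper95.GB.Thick
import Pool.Graph.R_seed8.Y298.CA.ScaAll

set_option autoImplicit false

/-! # Thin discs about typical parameters, and comparison with the harmonic measure -/

namespace Pool.Agent.Helper95.GB

open Complex Metric Set Filter Topology MeasureTheory
open N62a1eb23
open Pool.Agent.Y298.CA (Lyap)
open Pool.Agent.H713R2 (IsExteriorMap exists_beta)
open Pool.Agent.H712R2 (P fc P_zero P_succ isCompact_multibrot mem_multibrot_iff)

variable {d : ℕ}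

/-- the area of the Multibrot set in a disc -/
noncomputable def ar (d : ℕ) (c : ℂ) (r : ℝ) : ℝ := (volume (multibrotSet d ∩ ball c r)).toReal

theorem ar_mono {c c' : ℂ} {r r' : ℝ} (h : ball c r ⊆ ball c' r') : ar d c r ≤ ar d c' r' := by
  unfold ar
  apply ENNReal.toReal_mono _ (measure_mono (inter_subset_inter_right _ h))
  exact ((measure_mono inter_subset_right).trans_lt measure_ball_lt_top).ne

theorem expo_gt_two (hd : 2 ≤ d) : (2 : ℝ) < 2 * d / ((d : ℝ) - 1) := by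
  have hdR : (2 : ℝ) ≤ d := by exact_mod_cast hd
  rw [lt_div_iff₀ (by linarith)]
  linarith

/-- at the parameters with a Lyapunov exponent the Multibrot set is thin -/
theorem thin_lyap (hd : 2 ≤ d) {χ : ℝ} {c₀ : ℂ} (h : Lyap d χ c₀) {σ : ℝ}
    (hσ : σ < 2 * d / ((d : ℝ) - 1)) : ∀ᶠ r in 𝓝[>] (0 : ℝ), ar d c₀ r < r ^ σ := by
  have hs := (Pool.Agent.Y298.CA.scal_all hd h).areaM
  obtain ⟨σ', h1, h2⟩ := exists_between (max_lt hσ
    (show (0 : ℝ) < 2 * d / ((d : ℝ) - 1) by linarith [expo_gt_two hd]))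
  have hσ' : σ < σ' := (le_max_left _ _).trans_lt h1
  have hσ0 : 0 < σ' := (le_max_right _ _).trans_lt h1
  have hr1 : ∀ᶠ r in 𝓝[>] (0 : ℝ), r < 1 := mem_nhdsWithin_of_mem_nhds (gt_mem_nhds one_pos)
  filter_upwards [hs.eventually_const_lt h2, hr1, self_mem_nhdsWithin] with r hr hr1 hr0
  have hr0' : 0 < r := hr0
  have hlog : Real.log r < 0 := Real.log_neg hr0' hr1
  have hlt : r ^ σ' < r ^ σ := Real.rpow_lt_rpow_of_exponent_gt hr0' hr1 hσ'
  refine lt_of_le_of_lt ?_ hlt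
  have hF : 0 ≤ ar d c₀ r := ENNReal.toReal_nonneg
  rcases hF.eq_or_lt with h3 | h3
  · rw [← h3]
    positivity
  · have h4 : σ' < Real.log (ar d c₀ r) / Real.log r := hr
    rw [lt_div_iff_of_neg hlog] at h4
    rw [← Real.log_le_log_iff h3 (by positivity), Real.log_rpow hr0']
    exact h4.le

/-- the parameters with a thin disc -/
def Th (d : ℕ) (δ σ : ℝ) : Set ℂ := {c | ∃ r : ℝ, 0 < r ∧ r < δ ∧ ar d c r < r ^ σ}

theorem Th_nhds {c₀ : ℂ} {δ σ σ' : ℝ} (hσ : σ < σ') (hδ : δ ≤ 1) (h : c₀ ∈ Th d δ σ') :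
    ∀ᶠ c in 𝓝 c₀, c ∈ Th d δ σ := by
  obtain ⟨r, hr0, hr1, hr2⟩ := h
  have hlt : r ^ σ' < r ^ σ := Real.rpow_lt_rpow_of_exponent_gt hr0 (by linarith) hσ
  have hc : Tendsto (fun c : ℂ => (r - ‖c - c₀‖) ^ σ) (𝓝 c₀) (𝓝 ((r - ‖c₀ - c₀‖) ^ σ)) := by
    have h1 : ContinuousAt (fun c : ℂ => r - ‖c - c₀‖) c₀ := by fun_prop
    apply ContinuousAt.rpow_const h1
    left
    simp only [sub_self, norm_zero, sub_zero]
    exact hr0.ne'
  rw [sub_self, norm_zero, sub_zero] at hc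
  filter_upwards [hc.eventually_const_lt hlt, ball_mem_nhds c₀ hr0] with c h1 h2
  rw [mem_ball, dist_eq_norm] at h2
  refine ⟨r - ‖c - c₀‖, by linarith, by linarith [norm_nonneg (c - c₀)], ?_⟩
  refine lt_of_le_of_lt ?_ (hr2.trans h1)
  apply ar_mono
  apply ball_subset_ball'
  rw [dist_eq_norm]
  linarith

/-- **Thin discs about typical parameters.** -/
theorem thin_residual (hd : 2 ≤ d) :
    ∀ᶠ c₀ : frontier (multibrotSet d) in residual (frontier (multibrotSet d)),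
      ∀ σ : ℝ, σ < 2 * d / ((d : ℝ) - 1) → ∃ᶠ r in 𝓝[>] (0 : ℝ), ar d (c₀ : ℂ) r < r ^ σ := by
  have h1 : ∀ᶠ c₀ : frontier (multibrotSet d) in residual (frontier (multibrotSet d)),
      ∀ i k : ℕ, (c₀ : ℂ) ∈ Th d (1 / ((i : ℝ) + 1)) (2 * d / ((d : ℝ) - 1) - 1 / ((k : ℝ) + 1)) := by
    rw [eventually_countable_forall]
    intro i
    rw [eventually_countable_forall]
    intro k
    obtain ⟨T, hT⟩ : ∃ T, T = Th d (1 / ((i : ℝ) + 1))
      (2 * d / ((d : ℝ) - 1) - 1 / ((k : ℝ) + 1)) := ⟨_, rfl⟩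
    rw [← hT]
    have hU : {c₀ : frontier (multibrotSet d) | (c₀ : ℂ) ∈ interior T} ∈
        residual (frontier (multibrotSet d)) := by
      apply residual_of_dense_open
      · exact isOpen_interior.preimage continuous_subtype_val
      · intro x
        rw [Metric.mem_closure_iff]
        intro r hr
        obtain ⟨y, hy1, hy2, hy3⟩ := lyap_dense hd x.2 hr
        refine ⟨⟨y, hy1⟩, ?_, ?_⟩
        · show y ∈ interior T
          rw [mem_interior_iff_mem_nhds, hT]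
          have hk : 0 < 1 / ((k : ℝ) + 1) := by positivity
          have hi1 : 1 / ((i : ℝ) + 1) ≤ 1 := by
            rw [div_le_one (by positivity)]
            linarith [(Nat.cast_nonneg i : (0 : ℝ) ≤ i)]
          apply Th_nhds (σ' := 2 * d / ((d : ℝ) - 1) - 1 / ((k : ℝ) + 1) / 2) (by linarith) hi1
          have h2 := thin_lyap hd hy3 (σ := 2 * d / ((d : ℝ) - 1) - 1 / ((k : ℝ) + 1) / 2)
            (by linarith)
          have h3 : ∀ᶠ r in 𝓝[>] (0 : ℝ), r < 1 / ((i : ℝ) + 1) :=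
            mem_nhdsWithin_of_mem_nhds (gt_mem_nhds (by positivity))
          obtain ⟨r, h4, h5, h6⟩ := (h2.and (h3.and self_mem_nhdsWithin)).exists
          exact ⟨r, h6, h5, h4⟩
        · rw [Subtype.dist_eq, dist_comm, dist_eq_norm]
          exact hy2
    filter_upwards [hU] with c₀ hc₀
    exact interior_subset hc₀
  filter_upwards [h1] with c₀ hc₀ σ hσ
  obtain ⟨k, hk⟩ := exists_nat_one_div_lt (show 0 < 2 * d / ((d : ℝ) - 1) - σ by linarith)
  by_contra hcon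
  rw [not_frequently] at hcon
  obtain ⟨δ, hδ, H⟩ := mem_nhdsGT_iff_exists_Ioc_subset.1 hcon
  obtain ⟨i, hi⟩ := exists_nat_one_div_lt (show 0 < δ from hδ)
  obtain ⟨r, h2, h3, h4⟩ := hc₀ i k
  refine H ⟨h2, (h3.trans hi).le⟩ (h4.trans_le ?_)
  have hi1 : 1 / ((i : ℝ) + 1) ≤ 1 := by
    rw [div_le_one (by positivity)]
    linarith [(Nat.cast_nonneg i : (0 : ℝ) ≤ i)]
  exact Real.rpow_le_rpow_of_exponent_ge h2 (by linarith) (by linarith)

/-- no positive Lyapunov exponent at such parameters -/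
theorem not_lyap' (hd : 2 ≤ d) {c₀ : ℂ} (h : ∃ᶠ r in 𝓝[>] (0 : ℝ), ∃ (n : ℕ) (V : Set ℂ), 0 ≤ n ∧
      IsConnected V ∧ (∀ c ∈ V, Att d n c) ∧
      (1 - 1 / 2) * (Real.pi * r ^ 2) < (volume (V ∩ ball c₀ r)).toReal) {χ : ℝ} :
      ¬ Lyap d χ c₀ := by
  intro hL
  have hpi := Real.pi_gt_three
  obtain ⟨σ, h1, h2⟩ := exists_between (expo_gt_two hd)
  have ht := thin_lyap hd hL h2
  have hr : ∀ᶠ r in 𝓝[>] (0 : ℝ), r ^ (σ - 2) < 1 := by
    have h3 : Tendsto (fun r : ℝ => r ^ (σ - 2)) (𝓝[>] 0) (𝓝 (0 ^ (σ - 2))) :=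
      ((Real.continuousAt_rpow_const 0 (σ - 2) (Or.inr (by linarith))).tendsto).mono_left
        nhdsWithin_le_nhds
    rw [Real.zero_rpow (by linarith)] at h3
    exact h3.eventually_lt_const one_pos
  obtain ⟨r, ⟨n, V, -, -, hV, hvol⟩, h3, h4, h5⟩ := (h.and_eventually
    (ht.and (hr.and self_mem_nhdsWithin))).exists
  have h5' : 0 < r := h5
  have h6 : (volume (V ∩ ball c₀ r)).toReal ≤ ar d c₀ r := by
    unfold ar
    apply ENNReal.toReal_mono
    · exact ((measure_mono inter_subset_right).trans_lt measure_ball_lt_top).ne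
    · apply measure_mono
      apply inter_subset_inter_left
      exact fun c hc => hyp_sub hd ⟨n, hV c hc⟩
  have h7 : r ^ σ = r ^ (σ - 2) * r ^ 2 := by
    rw [← Real.rpow_natCast r 2, ← Real.rpow_add h5']
    norm_num
  have h8 : r ^ (σ - 2) * r ^ 2 < 1 * r ^ 2 := by gcongr
  rw [h7] at h3
  nlinarith [sq_nonneg r]

theorem not_lyap (hd : 2 ≤ d) {c₀ : ℂ} (h : Zooms d c₀) {χ : ℝ} : ¬ Lyap d χ c₀ :=
  not_lyap' hd (thick hd h (ε := 1 / 2) (by norm_num) 0)

/-- almost every ray lands at a parameter with the Lyapunov exponent `log d` -/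
theorem ae_land_lyap (hd : 2 ≤ d) {ψ : ℂ → ℂ} (hψ : IsExteriorMap (multibrotSet d) ψ) :
    ∀ᵐ θ : ℝ, ∃ c₀ ∈ frontier (multibrotSet d),
      Tendsto (fun r : ℝ => ψ (r * exp (θ * I))) (𝓝[>] 1) (𝓝 c₀) ∧ Lyap d (Real.log d) c₀ := by
  filter_upwards [Pool.Agent.N772.TC.ae_lyap hd hψ, Pool.Agent.Y736.HG.ae_land hd hψ] with θ h1 h2
  have h3 := Pool.Agent.N772.TC.bd_spec h2
  exact ⟨_, land_frontier hd hψ h3, h3, h1⟩

end Pool.Agent.Helper95.GB
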