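import Pool.Graph.R_pool_sql_team_seeded_63374d34.Results.MP_8f2e1c_an.FullUniversality
import Pool.Agent.Helper95.GB.Att
import Pool.Agent.Helper95.GB.Dens

set_option autoImplicit false

/-! # Copies of the Multibrot set based at boundary parameters -/

namespace Pool.Agent.Helper95.GB

open Complex Metric Set Filter Topology MeasureTheory
open N62a1eb23
open Pool.Agent.H712R2 (P fc P_zero P_succ isCompact_multibrot)
open Pool.Agent.Results.MP_8f2e1c_an.FullUniversality (centres Universal Scales poly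
  Renormalises Cycles Near univ many)

variable {d : ℕ}

/-- The family `z ^ d + (e + l t)` renormalises to `z ^ d + t`, with return time `n`. -/
def Ren (d : ℕ) (R : ℝ) (n : ℕ) (l m e : ℂ) : Prop :=
  ∀ t z : ℂ, ‖t‖ ≤ R → ‖z‖ ≤ R →
    ‖(fc d (e + l * t))^[n] (m * z) / m - (z ^ d + t)‖ ≤ 1 / R ∧
      ∀ j, 0 < j → j < n → R * ‖m‖ < ‖(fc d (e + l * t))^[j] (m * z)‖

/-- The attracting cycles are transferred. -/
def Tra (d : ℕ) (K : Set ℂ) (n : ℕ) (l e : ℂ) : Prop :=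
  ∀ t ∈ K, ∀ p, Att d p t → Att d (n * p) (e + l * t)

theorem map_zero_eq (d : ℕ) (hd : 2 ≤ d) (m k : ℂ) :
    Pool.Agent.Results.MP_8f2e1c_an.FullUniversality.map
      (Pool.Agent.Results.MP_8f2e1c_an.FullUniversality.upper d m 0)
      (Pool.Agent.Results.MP_8f2e1c_an.FullUniversality.lower d 0) k = fc d k := by
  funext y
  unfold Pool.Agent.Results.MP_8f2e1c_an.FullUniversality.map
    Pool.Agent.Results.MP_8f2e1c_an.FullUniversality.upper
    Pool.Agent.Results.MP_8f2e1c_an.FullUniversality.lower fc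
  simp

theorem poly_zero_eq (d : ℕ) (t : ℂ) : poly d 0 t = fc d t := by
  funext y
  unfold poly fc
  simp

theorem att_centre (hd : 2 ≤ d) {n : ℕ} (hn : 1 ≤ n) {c : ℂ} (hc : c ∈ centres d n) :
    Att d n c := by
  have hc' : Function.minimalPeriod (fc d c) 0 = n := hc
  have hP : (fc d c)^[n] 0 = 0 := by
    have := Function.iterate_minimalPeriod (f := fc d c) (x := (0 : ℂ))
    rwa [hc'] at this
  have h1 : IsAttractingCycle (fc d c) n 0 := Pool.Agent.H548R3.MB.att_of_centre hd hn hP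
  have h2 := att_of_cycle h1
  rwa [hc'] at h2

theorem exp_lim {a : ℝ} (ha : 0 < a) {r : ℝ} (hr : 0 < r) :
    ∀ᶠ n : ℕ in atTop, Real.exp (-(a * n)) < r := by
  have h1 : Tendsto (fun n : ℕ => Real.exp (-(a * n))) atTop (𝓝 0) :=
    Real.tendsto_exp_neg_atTop_nhds_zero.comp
      (Tendsto.const_mul_atTop ha tendsto_natCast_atTop_atTop)
  exact h1.eventually_lt_const hr

theorem exp_big {a : ℝ} (ha : 0 < a) (R : ℝ) :
    ∀ᶠ n : ℕ in atTop, R < Real.exp (a * n) := by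
  have h1 : Tendsto (fun n : ℕ => Real.exp (a * n)) atTop atTop :=
    Real.tendsto_exp_atTop.comp (Tendsto.const_mul_atTop ha tendsto_natCast_atTop_atTop)
  exact h1.eventually_gt_atTop R

theorem exists_centre {δ' χ : ℝ} {c₀ : ℂ} {n : ℕ} {γ : ℝ}
    (h : Real.exp (γ * n) ≤
      ({c | c ∈ centres d n ∧ ‖c - c₀‖ ≤ Real.exp (-((χ - δ') * n))}.ncard : ℝ)) :
    ∃ c ∈ centres d n, ‖c - c₀‖ ≤ Real.exp (-((χ - δ') * n)) := by
  have h1 : (0 : ℝ) < ({c | c ∈ centres d n ∧ ‖c - c₀‖ ≤ Real.exp (-((χ - δ') * n))}.ncard : ℝ) :=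
    (Real.exp_pos _).trans_le h
  have h2 : 0 < {c | c ∈ centres d n ∧ ‖c - c₀‖ ≤ Real.exp (-((χ - δ') * n))}.ncard := by
    exact_mod_cast h1
  obtain ⟨c, hc1, hc2⟩ := nonempty_of_ncard_ne_zero h2.ne'
  exact ⟨c, hc1, hc2⟩

/-- near every boundary parameter there are superattracting parameters of different periods -/
theorem two_centres (hd : 2 ≤ d) {x : ℂ} (hx : x ∈ frontier (multibrotSet d)) {r : ℝ}
    (hr : 0 < r) : ∃ (p q : ℕ) (t₁ t₂ : ℂ), p ≠ q ∧ Att d p t₁ ∧ Att d q t₂ ∧ ‖t₁ - x‖ < r ∧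
      ‖t₂ - x‖ < r := by
  obtain ⟨c₀, -, hc₀, hL⟩ := lyap_dense hd hx (half_pos hr)
  have hχ := hL.1
  obtain ⟨δ, -, H⟩ := univ hd hχ one_pos
  obtain ⟨δ', h1, h2, h3, -⟩ := H c₀ hL
  obtain ⟨γ, -, hγ⟩ := many hd hL h1 h2 h3
  have hlim := exp_lim (sub_pos.2 h2) (half_pos hr)
  obtain ⟨N, hN⟩ := eventually_atTop.1 (hγ.and (hlim.and (eventually_ge_atTop 1)))
  obtain ⟨a1, a2, a3⟩ := hN N le_rfl
  obtain ⟨b1, b2, b3⟩ := hN (N + 1) (by omega)
  obtain ⟨t₁, c1, c2⟩ := exists_centre a1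
  obtain ⟨t₂, e1, e2⟩ := exists_centre b1
  refine ⟨N, N + 1, t₁, t₂, by omega, att_centre hd a3 c1, att_centre hd b3 e1, ?_, ?_⟩
  · have := norm_add_le (t₁ - c₀) (c₀ - x)
    rw [sub_add_sub_cancel] at this
    linarith
  · have := norm_add_le (t₂ - c₀) (c₀ - x)
    rw [sub_add_sub_cancel] at this
    linarith

theorem small_of_scale {x a η : ℝ} {n : ℕ} (hn : 0 < n) (hx : 0 < x)
    (h : |-Real.log x / n - a| ≤ η) : x ≤ Real.exp (-((a - η) * n)) := by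
  have hn0 : (0 : ℝ) < n := by exact_mod_cast hn
  have h1 := (abs_le.1 h).1
  have h2 : a - η ≤ -Real.log x / n := by linarith
  rw [le_div_iff₀ hn0] at h2
  rw [← Real.log_le_iff_le_exp hx]
  linarith

/-- **Copies near every boundary parameter, at every position.** -/
theorem exists_copy (hd : 2 ≤ d) {x t₀ : ℂ} (hx : x ∈ frontier (multibrotSet d))
    (ht₀ : t₀ ∈ frontier (multibrotSet d)) {K : Set ℂ} (hK : IsCompact K) (hKH : K ⊆ Hyp d)
    {R τ r : ℝ} (hR : 0 < R) (hτ : 0 < τ) (hr : 0 < r) :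
    ∃ (n : ℕ) (l m e y : ℂ), R ≤ n ∧ 0 < ‖l‖ ∧ ‖l‖ ≤ 1 / R ∧ 0 < ‖m‖ ∧ ‖m‖ ≤ 1 / R ∧
      Ren d R n l m e ∧ Tra d K n l e ∧ y ∈ frontier (multibrotSet d) ∧
      ‖y - (e + l * t₀)‖ < ‖l‖ * τ ∧ ‖y - x‖ < r := by
  have hdR : (2 : ℝ) ≤ d := by exact_mod_cast hd
  have hd1 : (0 : ℝ) < (d : ℝ) - 1 := by linarith
  obtain ⟨c₀, hc₀f, hc₀, hL⟩ := lyap_dense hd hx (half_pos hr)
  obtain ⟨χ, hχe⟩ : ∃ χ, χ = Real.log d := ⟨_, rfl⟩
  rw [← hχe] at hL
  have hχ : 0 < χ := hL.1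
  obtain ⟨p₁, p₂, t₁, t₂, hpp, ha1, ha2, hb1, hb2⟩ := two_centres hd ht₀ hτ
  obtain ⟨K', hK'e⟩ : ∃ K', K' = K ∪ {t₁, t₂} := ⟨_, rfl⟩
  have hK' : IsCompact K' := by
    rw [hK'e]
    exact hK.union (toFinite _).isCompact
  have hK'H : K' ⊆ Hyp d := by
    rw [hK'e]
    apply union_subset hKH
    rintro y (rfl | hy)
    · exact ⟨p₁, ha1⟩
    · rw [mem_singleton_iff] at hy
      rw [hy]
      exact ⟨p₂, ha2⟩
  have hm1 : t₁ ∈ K' := by rw [hK'e]; exact Or.inr (Or.inl rfl)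
  have hm2 : t₂ ∈ K' := by rw [hK'e]; exact Or.inr (Or.inr rfl)
  obtain ⟨N, ε, hN, hε, hε1, HU⟩ := uniform hd hK' hK'H
  obtain ⟨η, hη⟩ : ∃ η, η = χ / (2 * ((d : ℝ) - 1)) := ⟨_, rfl⟩
  have hη0 : 0 < η := by rw [hη]; positivity
  have hη1 : χ / ((d : ℝ) - 1) - η = η := by rw [hη]; field_simp; ring
  have hη2 : η ≤ χ * d / ((d : ℝ) - 1) - η := by
    have h1 : χ / ((d : ℝ) - 1) ≤ χ * d / ((d : ℝ) - 1) := by
      apply div_le_div_of_nonneg_right _ hd1.le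
      nlinarith
    linarith
  obtain ⟨δ, hδ, H⟩ := univ hd hχ hη0
  obtain ⟨δ', h1, h2, h3, h4⟩ := H c₀ hL
  obtain ⟨γ, -, hγ⟩ := many hd hL h1 h2 h3
  obtain ⟨D, hDe⟩ : ∃ D : Set ((Fin (d - 1) → ℂ) × ℂ), D = (fun t : ℂ => ((0 : Fin (d - 1) → ℂ), t)) '' K' :=
    ⟨_, rfl⟩
  have hD : IsCompact D := by
    rw [hDe]
    exact hK'.image (by fun_prop)
  have hU := h4 D hD N hN (ε / 2) (by positivity)
  obtain ⟨B, hB⟩ := hK'.isBounded.exists_norm_le
  obtain ⟨Λ, hΛ⟩ : ∃ Λ, Λ = R + |B| + ‖t₀‖ + τ := ⟨_, rfl⟩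
  have hrr : 0 < min (1 / R) (r / (8 * (1 + ‖t₀‖ + τ))) := by positivity
  obtain ⟨n, hn1, hn2, hn3, hn4, hn5, hn6, hn7, hn8⟩ := (hγ.and (hU.and
    ((eventually_ge_atTop (max 1 ⌈R⌉₊)).and ((exp_big hδ Λ).and
    ((exp_lim (sub_pos.2 h2) (show 0 < r / 8 by positivity)).and
    ((exp_lim hδ (show 0 < r / 8 by positivity)).and ((exp_lim hη0 hrr).and
    (eventually_ge_atTop 1)))))))).exists
  have hn0 : 0 < n := by omega
  obtain ⟨c, hc1, hc2⟩ := exists_centre hn1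
  obtain ⟨m, l, ⟨s1, s2, -, -, s5, s6⟩, hbig⟩ := hn2 c hc1 hc2
  have hmpos : 0 < ‖m‖ := norm_pos_iff.2 s1
  have hlpos : 0 < ‖l‖ := norm_pos_iff.2 s2
  have hmle : ‖m‖ ≤ Real.exp (-(η * n)) := by
    have := small_of_scale hn0 hmpos s5
    rwa [hη1] at this
  have hlle : ‖l‖ ≤ Real.exp (-(η * n)) := by
    refine (small_of_scale hn0 hlpos s6).trans (Real.exp_le_exp.2 ?_)
    have : η * n ≤ (χ * d / ((d : ℝ) - 1) - η) * n := by gcongr
    linarith
  obtain ⟨b, hb, hb'⟩ := hbig 0 0 (by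
    intro i
    simp only [Pi.zero_apply, norm_zero]
    exact (Real.exp_pos _).le) (by
    intro i
    simp only [Pi.zero_apply, norm_zero]
    exact (Real.exp_pos _).le)
  obtain ⟨E, hE⟩ : ∃ E, E = Real.exp (δ * n) := ⟨_, rfl⟩
  rw [← hE] at hb' hn4
  have hE0 : 0 < E := by rw [hE]; exact Real.exp_pos _
  have hRE : R ≤ E := by
    rw [hΛ] at hn4
    have := abs_nonneg B
    have := norm_nonneg t₀
    linarith
  have hKE : ∀ t ∈ K', ‖t‖ ≤ E := by
    intro t ht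
    have e1 := hB t ht
    rw [hΛ] at hn4
    have := le_abs_self B
    have := norm_nonneg t₀
    linarith
  have hsmall : ‖l‖ < min (1 / R) (r / (8 * (1 + ‖t₀‖ + τ))) := hlle.trans_lt hn7
  have hmsmall : ‖m‖ < min (1 / R) (r / (8 * (1 + ‖t₀‖ + τ))) := hmle.trans_lt hn7
  have hRen : Ren d R n l m (c + b) := by
    intro t z ht hz
    obtain ⟨-, e2, -⟩ := hb' t (c + b + l * t) (ht.trans hRE) rfl
    rw [map_zero_eq d hd, poly_zero_eq] at e2
    obtain ⟨e3, -, e5⟩ := e2 z (hz.trans hRE)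
    refine ⟨e3.trans ?_, fun j hj0 hj => lt_of_le_of_lt ?_ (e5 j hj0 hj)⟩
    · exact one_div_le_one_div_of_le hR hRE
    · gcongr
  have hTra : Tra d K' n l (c + b) := by
    intro t ht p hp
    obtain ⟨-, -, e2⟩ := hb' t (c + b + l * t) (hKE t ht) rfl
    obtain ⟨e3, -⟩ := e2 (by rw [hDe]; exact ⟨t, ht, rfl⟩)
    rw [map_zero_eq d hd, poly_zero_eq] at e3
    obtain ⟨z, z1, z2, z3⟩ := HU t ht p hp
    obtain ⟨α, -, f2, f3, -⟩ := e3 z z2 (by linarith)
    rw [z1] at f2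
    have f4 : ‖deriv ((fc d (c + b + l * t))^[n * N]) α‖ < 1 := by
      have := norm_add_le (deriv ((fc d (c + b + l * t))^[n * N]) α - deriv ((fc d t)^[N]) z)
        (deriv ((fc d t)^[N]) z)
      rw [sub_add_cancel] at this
      linarith
    have f5 : p ∣ N := by
      rw [← z1]
      exact Function.IsPeriodicPt.minimalPeriod_dvd z2
    have f6 : Function.IsPeriodicPt (fc d (c + b + l * t)) (n * N) α := by
      rw [Function.isPeriodicPt_iff_minimalPeriod_dvd, f2]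
      exact Nat.mul_dvd_mul_left n f5
    have f7 : IsAttractingCycle (fc d (c + b + l * t)) (n * N) α :=
      ⟨by positivity, f6, diff_fc d _ _ _, f4⟩
    have f8 := att_of_cycle f7
    rwa [f2] at f8
  -- a boundary parameter
  obtain ⟨y, hy1, hy2⟩ : (ball (c + b + l * t₀) (‖l‖ * τ) ∩ frontier (multibrotSet d)).Nonempty := by
    have hpre : IsPreconnected (ball (c + b + l * t₀) (‖l‖ * τ)) :=
      (convex_ball _ _).isPreconnected
    have hmem : ∀ t : ℂ, ‖t - t₀‖ < τ → c + b + l * t ∈ ball (c + b + l * t₀) (‖l‖ * τ) := by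
      intro t ht
      rw [mem_ball, dist_eq_norm]
      have : c + b + l * t - (c + b + l * t₀) = l * (t - t₀) := by ring
      rw [this, norm_mul]
      gcongr
    have g1 := hTra t₁ hm1 p₁ ha1
    have g2 := hTra t₂ hm2 p₂ ha2
    by_cases hex : (ball (c + b + l * t₀) (‖l‖ * τ) ∩ (multibrotSet d)ᶜ).Nonempty
    · exact Pool.Agent.N673.QC.meets_frontier hpre
        ⟨_, hmem t₁ hb1, hyp_sub hd ⟨_, g1⟩⟩ hex
    · exfalso
      have hsub : ball (c + b + l * t₀) (‖l‖ * τ) ⊆ multibrotSet d := by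
        intro w hw
        by_contra hcon
        exact hex ⟨w, hw, hcon⟩
      have g3 := att_const hd isOpen_ball hpre hsub (hmem t₁ hb1) (hmem t₂ hb2) g1
      have g4 := att_unique hd g3 g2
      exact hpp (Nat.eq_of_mul_eq_mul_left hn0 g4)
  rw [mem_ball, dist_eq_norm] at hy1
  refine ⟨n, l, m, c + b, y, ?_, hlpos, hsmall.le.trans (min_le_left _ _), hmpos,
    hmsmall.le.trans (min_le_left _ _), hRen, ?_, hy2, hy1, ?_⟩
  · have e1 : ⌈R⌉₊ ≤ n := (le_max_right _ _).trans hn3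
    exact (Nat.le_ceil R).trans (by exact_mod_cast e1)
  · intro t ht p hp
    exact hTra t (by rw [hK'e]; exact Or.inl ht) p hp
  · have e1 : y - x = (y - (c + b + l * t₀)) + (c - c₀) + b + l * t₀ + (c₀ - x) := by ring
    rw [e1]
    have e2 : ‖l‖ * (1 + ‖t₀‖ + τ) ≤ r / 8 := by
      have := hsmall.le.trans (min_le_right _ _)
      rw [le_div_iff₀ (by positivity)] at this
      linarith
    have e3 : ‖l * t₀‖ = ‖l‖ * ‖t₀‖ := norm_mul _ _
    have e4 := norm_nonneg l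
    calc _ ≤ ‖y - (c + b + l * t₀)‖ + ‖c - c₀‖ + ‖b‖ + ‖l * t₀‖ + ‖c₀ - x‖ := by
          refine (norm_add_le _ _).trans (add_le_add ?_ le_rfl)
          refine (norm_add_le _ _).trans (add_le_add ?_ le_rfl)
          refine (norm_add_le _ _).trans (add_le_add ?_ le_rfl)
          exact norm_add_le _ _
      _ < r := by
          rw [e3]
          nlinarith

end Pool.Agent.Helper95.GB
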